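import Pool.Agent.Q236.ML.Mixed
import Pool.Agent.TH464.PO.AvgS

set_option autoImplicit false

/-!
# The pair sums for the values of a function which is periodic modulo all primes
-/

namespace Pool.Agent.Q236.ML

open Finset Filter Pool.Agent.H373R2.T7 Pool.Agent.W123.RP Pool.Agent.W123.RU Pool.Agent.TH464.PO
open Pool.Agent.Q236.CP

open Classical in
/-- **Average over a set of shifts** of the products over the collision primes above `w`. -/
theorem avg_E (K D w : ℕ) (hw : 1 ≤ w) (η : ℝ) (hη : 0 < η)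
    (hKD : (K * D : ℕ) / (w : ℝ) ≤ η) : ∃ T0 : ℕ, 2 ≤ T0 ∧ ∀ T : ℕ, T0 ≤ T →
    ∀ Co : ℕ → ℕ → Prop, Coll Co w D → ∀ y : ℕ, ∀ η' : ℝ, 0 ≤ η' → K * η' ≤ η →
    ∀ E : Finset ℕ, E ⊆ Icc 1 T →
    (∀ h ∈ E, ((((pz y).filter (fun p : ℕ => T < p ∧ Co p h)).card : ℕ) : ℝ) ≤ η' * T) →
    ∑ h ∈ E, (∏ p ∈ (pz y).filter (fun p : ℕ => w < p ∧ Co p h), (1 + (K : ℝ) / p) - 1) ≤
      (Real.exp η * (Real.exp η * (Real.exp η + η)) - 1) * T := by
  obtain ⟨T0, hT0, havg⟩ := avg_sharp K D w hw η hη hKD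
  refine ⟨T0, hT0, ?_⟩
  intro T hT Co hCo y η' hη' hKη E hE hbig
  have hT2 : 2 ≤ T := by omega
  have hTr : (0 : ℝ) < T := by exact_mod_cast (by omega : 0 < T)
  have h1 := havg T hT Co hCo (min y T) 0 le_rfl (by rw [mul_zero]; exact hη.le) (by
    intro h _
    have : (pz (min y T)).filter (fun p : ℕ => T < p ∧ Co p h) = ∅ := by
      rw [filter_eq_empty_iff]
      intro p hp
      have := (mem_pz.1 hp).1
      have := min_le_right y T
      omega
    rw [this]
    simp)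
  have hexp1 : 1 ≤ Real.exp η := Real.one_le_exp hη.le
  have hge : ∀ h, 1 ≤ ∏ p ∈ (pz (min y T)).filter (fun p : ℕ => w < p ∧ Co p h), (1 + (K : ℝ) / p) := by
    intro h
    apply Finset.one_le_prod
    intro p _
    have : 0 ≤ (K : ℝ) / p := by positivity
    linarith
  have hstep : ∀ h ∈ E, ∏ p ∈ (pz y).filter (fun p : ℕ => w < p ∧ Co p h), (1 + (K : ℝ) / p) ≤
      Real.exp η * ∏ p ∈ (pz (min y T)).filter (fun p : ℕ => w < p ∧ Co p h), (1 + (K : ℝ) / p) := by
    intro h hh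
    set F := (pz y).filter (fun p : ℕ => w < p ∧ Co p h) with hF
    have hsplit := Finset.prod_filter_mul_prod_filter_not F (fun p => p ≤ T) (fun p => (1 + (K : ℝ) / p))
    rw [← hsplit, mul_comm]
    apply mul_le_mul
    · set FL := F.filter (fun p => ¬ p ≤ T) with hFL
      have hcard : (FL.card : ℝ) ≤ η' * T := by
        refine le_trans ?_ (hbig h hh)
        have : FL.card ≤ ((pz y).filter (fun p : ℕ => T < p ∧ Co p h)).card := by
          apply Finset.card_le_card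
          intro p hp
          rw [hFL, mem_filter, hF, mem_filter] at hp
          rw [mem_filter]
          exact ⟨hp.1.1, not_le.1 hp.2, hp.1.2.2⟩
        exact_mod_cast this
      calc ∏ p ∈ FL, (1 + (K : ℝ) / p) ≤ ∏ _p ∈ FL, Real.exp ((K : ℝ) / T) := by
            apply Finset.prod_le_prod
            · intro p _; positivity
            · intro p hp
              rw [hFL, mem_filter] at hp
              have h1 : (T : ℝ) ≤ p := by exact_mod_cast (by omega : T ≤ p)
              have h2 : (K : ℝ) / p ≤ K / T := by gcongr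
              have h3 := Real.add_one_le_exp ((K : ℝ) / T)
              linarith
        _ = Real.exp ((K : ℝ) / T * FL.card) := by
            rw [Finset.prod_const, ← Real.exp_nat_mul]
            congr 1
            ring
        _ ≤ Real.exp η := by
            apply Real.exp_le_exp.2
            calc (K : ℝ) / T * FL.card ≤ K / T * (η' * T) := by gcongr
              _ = K * η' := by field_simp
              _ ≤ η := hKη
    · apply Finset.prod_le_prod_of_subset_of_one_le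
      · intro p hp
        rw [mem_filter, hF, mem_filter, mem_pz] at hp
        rw [mem_filter, mem_pz]
        exact ⟨⟨le_min hp.1.1.1 hp.2, hp.1.1.2⟩, hp.1.2⟩
      · intro p _; positivity
      · intro p _ _
        have : 0 ≤ (K : ℝ) / p := by positivity
        linarith
    · exact Finset.prod_nonneg fun p _ => by positivity
    · positivity
  calc ∑ h ∈ E, (∏ p ∈ (pz y).filter (fun p : ℕ => w < p ∧ Co p h), (1 + (K : ℝ) / p) - 1) ≤
      ∑ h ∈ E, (Real.exp η * ∏ p ∈ (pz (min y T)).filter (fun p : ℕ => w < p ∧ Co p h),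
        (1 + (K : ℝ) / p) - 1) := by
        apply sum_le_sum
        intro h hh
        have := hstep h hh
        linarith
    _ ≤ ∑ h ∈ Icc 1 T, (Real.exp η * ∏ p ∈ (pz (min y T)).filter (fun p : ℕ => w < p ∧ Co p h),
        (1 + (K : ℝ) / p) - 1) := by
        apply sum_le_sum_of_subset_of_nonneg hE
        intro h _ _
        have := hge h
        nlinarith
    _ = Real.exp η * ∑ h ∈ Icc 1 T, ∏ p ∈ (pz (min y T)).filter (fun p : ℕ => w < p ∧ Co p h),
        (1 + (K : ℝ) / p) - T := by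
        rw [sum_sub_distrib, mul_sum]
        simp
    _ ≤ Real.exp η * (Real.exp η * (Real.exp η + η) * T) - T := by
        have := mul_le_mul_of_nonneg_left h1 (Real.exp_pos η).le
        linarith
    _ = _ := by ring

lemma exp_bound2 (η : ℝ) (h0 : 0 ≤ η) (h1 : η ≤ 1) :
    Real.exp η * (Real.exp η * (Real.exp η + η)) - 1 ≤ 38 * η := by
  have h2 := exp_bound η h0 h1
  have h3 : Real.exp η ≤ 1 + 2 * η := by
    have h4 := Real.abs_exp_sub_one_le (x := η) (by rw [abs_of_nonneg h0]; exact h1)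
    rw [abs_of_nonneg h0] at h4
    have := (abs_le.1 h4).2
    linarith
  have h5 : 0 ≤ Real.exp η := (Real.exp_pos η).le
  have h6 : Real.exp η * (Real.exp η + η) ≤ 1 + 12 * η := by linarith
  have h7 : 0 ≤ Real.exp η * (Real.exp η + η) := by positivity
  calc Real.exp η * (Real.exp η * (Real.exp η + η)) - 1 ≤ (1 + 2 * η) * (1 + 12 * η) - 1 := by
        have := mul_le_mul h3 h6 h7 (by linarith)
        linarith
    _ ≤ 38 * η := by nlinarith

/-- a function which is periodic modulo all primes and takes few values modulo the primes above `w` -/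
structure PL (G : ℕ → ℤ) (w D : ℕ) : Prop where
  per : ∀ p n : ℕ, (p : ℤ) ∣ G n - G (n % p)
  few : ∀ p : ℕ, p.Prime → w < p → ∀ a : ℤ, ((range p).filter (fun r : ℕ => (p : ℤ) ∣ G r - a)).card ≤ D

lemma PL.mono {G : ℕ → ℤ} {w w' D : ℕ} (h : PL G w D) (hw : w ≤ w') : PL G w' D :=
  ⟨h.per, fun p hp hwp => h.few p hp (lt_of_le_of_lt hw hwp)⟩

lemma PL.congr {G : ℕ → ℤ} {w D : ℕ} (h : PL G w D) (p a b : ℕ) (hab : a % p = b % p) :
    (p : ℤ) ∣ G a - G b := by
  have h1 := h.per p a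
  have h2 := h.per p b
  rw [hab] at h1
  have : G a - G b = (G a - G (b % p)) - (G b - G (b % p)) := by ring
  rw [this]
  exact dvd_sub h1 h2

/-- the collisions with the value at `m` -/
def Co (G : ℕ → ℤ) (m p t : ℕ) : Prop := (p : ℤ) ∣ G (m + t) - G m

lemma PL.coll_per {G : ℕ → ℤ} {w D : ℕ} (h : PL G w D) (m p n : ℕ) : Co G m p n ↔ Co G m p (n % p) := by
  unfold Co
  have h1 := h.congr p (m + n) (m + n % p) (by rw [Nat.add_mod_mod])
  constructor
  · intro h2
    have : G (m + n % p) - G m = (G (m + n) - G m) - (G (m + n) - G (m + n % p)) := by ring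
    rw [this]
    exact dvd_sub h2 h1
  · intro h2
    have : G (m + n) - G m = (G (m + n % p) - G m) + (G (m + n) - G (m + n % p)) := by ring
    rw [this]
    exact dvd_add h2 h1

open Classical in
lemma PL.coll_few {G : ℕ → ℤ} {w D : ℕ} (h : PL G w D) (m p : ℕ) (hp : p.Prime) (hwp : w < p) :
    ((range p).filter (fun r => Co G m p r)).card ≤ D := by
  have h1 := h.few p hp hwp (G m)
  refine le_trans ?_ h1
  apply card_le_card_of_injOn (fun r => (m + r) % p)
  · intro r hr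
    rw [mem_coe, mem_filter, mem_range] at hr
    have hr2 := hr.2
    unfold Co at hr2
    rw [mem_coe, mem_filter, mem_range]
    refine ⟨Nat.mod_lt _ hp.pos, ?_⟩
    have h2 := h.per p (m + r)
    have : G ((m + r) % p) - G m = (G (m + r) - G m) - (G (m + r) - G ((m + r) % p)) := by ring
    rw [this]
    exact dvd_sub hr2 h2
  · intro r hr s hs hrs
    rw [mem_coe, mem_filter, mem_range] at hr hs
    simp only at hrs
    have h3 : m + r ≡ m + s [MOD p] := hrs
    have h4 : r ≡ s [MOD p] := Nat.ModEq.add_left_cancel' m h3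
    have h5 : r % p = s % p := h4
    rwa [Nat.mod_eq_of_lt hr.1, Nat.mod_eq_of_lt hs.1] at h5

lemma PL.coll {G : ℕ → ℤ} {w D : ℕ} (h : PL G w D) (m : ℕ) : Coll (Co G m) w D :=
  ⟨fun p n => h.coll_per m p n, fun p hp hwp => h.coll_few m p hp hwp⟩

open Classical in
/-- the product over the collision primes -/
noncomputable def Cp (G : ℕ → ℤ) (K w y m t : ℕ) : ℝ :=
  ∏ p ∈ (pz y).filter (fun p : ℕ => w < p ∧ Co G m p t), (1 + (K : ℝ) / p)

/-- the values of `G`, shifted to the natural numbers -/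
def vals (G : ℕ → ℤ) (s : ℤ) (M : ℕ) : Finset ℕ := (Icc 1 M).image (fun m => (G m + s).toNat)

/-- divisibility of the shifted integers -/
def Qz (z : ℤ) (p n : ℕ) : Prop := (p : ℤ) ∣ n + z

lemma Qz_mod (z : ℤ) (p n n' : ℕ) (h : n % p = n' % p) : Qz z p n ↔ Qz z p n' := by
  unfold Qz
  have h1 : (p : ℤ) ∣ (n : ℤ) - n' := (Nat.modEq_iff_dvd.1 (show n' ≡ n [MOD p] from h.symm))
  constructor
  · intro h2
    have : (n' : ℤ) + z = (n + z) - (n - n') := by ring
    rw [this]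
    exact dvd_sub h2 h1
  · intro h2
    have : (n : ℤ) + z = (n' + z) + (n - n') := by ring
    rw [this]
    exact dvd_add h2 h1

lemma nuB_Qz (z : ℤ) (p : ℕ) (hp : 0 < p) : nuB (Qz z) p = 1 := by
  classical
  unfold nuB
  rw [card_eq_one]
  refine ⟨((-z) % p).toNat, ?_⟩
  have hp' : (0 : ℤ) < p := by exact_mod_cast hp
  have h0 : 0 ≤ (-z) % p := Int.emod_nonneg _ hp'.ne'
  have h1 : (-z) % p < p := Int.emod_lt_of_pos _ hp'
  ext r
  rw [mem_filter, mem_range, mem_singleton]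
  unfold Qz
  constructor
  · rintro ⟨h2, h3⟩
    have h4 : (-z) % p = r := by
      have h5 : (-z) % p = (r : ℤ) % p := by
        apply Int.emod_eq_emod_iff_emod_sub_eq_zero.2
        apply Int.emod_eq_zero_of_dvd
        have : -z - (r : ℤ) = -(r + z) := by ring
        rw [this]
        exact (dvd_neg).2 h3
      rw [h5]
      exact Int.emod_eq_of_lt (Nat.cast_nonneg _) (by exact_mod_cast h2)
    rw [h4]
    simp
  · intro h2
    have h3 : (r : ℤ) = (-z) % p := by rw [h2]; exact Int.toNat_of_nonneg h0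
    refine ⟨by
      have : (r : ℤ) < p := by rw [h3]; exact h1
      exact_mod_cast this, ?_⟩
    rw [h3]
    have h4 := Int.emod_add_mul_ediv (-z) p
    have : (-z) % p + z = p * (-((-z) / p)) := by linarith
    rw [this]
    exact dvd_mul_right _ _

lemma perB_Qz (z : ℤ) : PerB (Qz z) 1 := by
  refine ⟨fun p n => Qz_mod z p n (n % p) (by rw [Nat.mod_mod]), fun p hp => ?_⟩
  rw [nuB_Qz z p hp.pos]

lemma CoG_Qz (z : ℤ) (p t : ℕ) (h : CoG (Qz z) p t) : p ∣ t := by
  obtain ⟨m, h1, h2⟩ := h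
  unfold Qz at h1 h2
  have h3 : (p : ℤ) ∣ (t : ℤ) := by
    have : (t : ℤ) = (((m + t : ℕ) : ℤ) + z) - (m + z) := by push_cast; ring
    rw [this]
    exact dvd_sub h2 h1
  exact_mod_cast h3

open Classical in
/-- sums over images -/
lemma sum_image_le' {α : Type*} [DecidableEq α] {β : Type*} (s : Finset β) (g : β → α) (f : α → ℝ) (hf : ∀ a, 0 ≤ f a) :
    ∑ a ∈ s.image g, f a ≤ ∑ b ∈ s, f (g b) := by
  rw [← Finset.sum_fiberwise_of_maps_to (s := s) (t := s.image g) (g := g)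
    (fun b hb => mem_image_of_mem g hb)]
  apply sum_le_sum
  intro a ha
  obtain ⟨b, hb, hba⟩ := mem_image.1 ha
  calc f a = f (g b) := by rw [hba]
    _ ≤ ∑ b ∈ s.filter (fun b => g b = a), f (g b) := by
        apply single_le_sum (f := fun b => f (g b)) (fun b _ => hf _)
        rw [mem_filter]
        exact ⟨hb, hba⟩

/-- the pairs of arguments with different values -/
def PrG (G : ℕ → ℤ) (M : ℕ) : Finset (ℕ × ℕ) := (prs (Icc 1 M)).filter (fun x => G x.2 ≠ G x.1)

lemma mem_PrG (G : ℕ → ℤ) (M : ℕ) (x : ℕ × ℕ) : x ∈ PrG G M ↔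
    ((1 ≤ x.1 ∧ x.1 ≤ M) ∧ (1 ≤ x.2 ∧ x.2 ≤ M)) ∧ x.1 < x.2 ∧ G x.2 ≠ G x.1 := by
  unfold PrG prs
  rw [mem_filter, mem_filter, mem_product, mem_Icc, mem_Icc]
  tauto

/-- the shifts for the argument `m` -/
def Et (G : ℕ → ℤ) (M m : ℕ) : Finset ℕ := (Icc 1 M).filter (fun t => m + t ≤ M ∧ G (m + t) ≠ G m)

lemma sum_PrG (G : ℕ → ℤ) (M : ℕ) (f : ℕ → ℕ → ℝ) :
    ∑ x ∈ PrG G M, f x.1 (x.2 - x.1) = ∑ m ∈ Icc 1 M, ∑ t ∈ Et G M m, f m t := by
  rw [Finset.sum_sigma']
  apply Finset.sum_bij' (fun (x : ℕ × ℕ) _ => (⟨x.1, x.2 - x.1⟩ : (_ : ℕ) × ℕ)) (fun (x : (_ : ℕ) × ℕ) _ => (x.1, x.1 + x.2))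
  · intro x hx
    rw [mem_PrG] at hx
    rw [mem_sigma]
    unfold Et
    rw [mem_filter, mem_Icc, mem_Icc]
    have e : x.1 + (x.2 - x.1) = x.2 := by omega
    simp only [e]
    exact ⟨hx.1.1, ⟨by omega, by omega⟩, by omega, hx.2.2⟩
  · intro x hx
    rw [mem_sigma] at hx
    unfold Et at hx
    rw [mem_filter, mem_Icc, mem_Icc] at hx
    rw [mem_PrG]
    simp only
    exact ⟨⟨hx.1, by omega, by omega⟩, by omega, hx.2.2.2⟩
  · intro x hx
    rw [mem_PrG] at hx
    have e : x.1 + (x.2 - x.1) = x.2 := by omega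
    simp only [e]
  · intro x hx
    simp
  · intro x hx
    rfl

lemma Co_of (G : ℕ → ℤ) (s : ℤ) (z : ℤ) (p m m' : ℕ) (a b : ℕ) (hlt : m < m') (ha : (a : ℤ) = G m + s)
    (hb : (b : ℤ) = G m' + s) (h1 : CoG (Qz z) p (max a b - min a b)) : Co G m p (m' - m) := by
  unfold Co
  rw [show m + (m' - m) = m' by omega]
  have h1 := CoG_Qz z p _ h1
  rcases le_total a b with h | h
  · rw [max_eq_right h, min_eq_left h] at h1
    have h2 : (p : ℤ) ∣ ((b - a : ℕ) : ℤ) := by exact_mod_cast h1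
    rw [Nat.cast_sub h, ha, hb] at h2
    have : G m' - G m = G m' + s - (G m + s) := by ring
    rw [this]
    exact h2
  · rw [max_eq_left h, min_eq_right h] at h1
    have h2 : (p : ℤ) ∣ ((a - b : ℕ) : ℤ) := by exact_mod_cast h1
    rw [Nat.cast_sub h, ha, hb] at h2
    have : G m' - G m = -(G m + s - (G m' + s)) := by ring
    rw [this]
    exact (dvd_neg).2 h2

lemma Fp_le_Cp (G : ℕ → ℤ) (s z : ℤ) (K w y m m' : ℕ) (a b : ℕ) (hlt : m < m') (ha : (a : ℤ) = G m + s)
    (hb : (b : ℤ) = G m' + s) : Fp (Qz z) K w y (max a b - min a b) ≤ Cp G K w y m (m' - m) := by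
  classical
  unfold Fp Cp
  apply Finset.prod_le_prod_of_subset_of_one_le
  · intro p hp
    rw [mem_filter] at hp ⊢
    exact ⟨hp.1, hp.2.1, Co_of G s z p m m' a b hlt ha hb hp.2.2⟩
  · intro p _; positivity
  · intro p _ _
    have : 0 ≤ (K : ℝ) / p := by positivity
    linarith

lemma prs_vals (G : ℕ → ℤ) (s : ℤ) (M : ℕ) (hpos : ∀ m ∈ Icc 1 M, 0 ≤ G m + s) :
    prs (vals G s M) ⊆ (PrG G M).image (fun x => (min (G x.1 + s).toNat (G x.2 + s).toNat,
      max (G x.1 + s).toNat (G x.2 + s).toNat)) := by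
  intro x hx
  unfold prs vals at hx
  rw [mem_filter, mem_product, mem_image, mem_image] at hx
  obtain ⟨⟨⟨m, hm, h1⟩, ⟨m', hm', h2⟩⟩, h3⟩ := hx
  have hne : G m ≠ G m' := by
    intro h
    rw [h] at h1
    omega
  rw [mem_Icc] at hm hm'
  rw [mem_image]
  rcases lt_or_ge m m' with h | h
  · refine ⟨(m, m'), ?_, ?_⟩
    · rw [mem_PrG]
      exact ⟨⟨hm, hm'⟩, h, hne.symm⟩
    · simp only [h1, h2]
      rw [min_eq_left (by omega), max_eq_right (by omega)]
  · refine ⟨(m', m), ?_, ?_⟩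
    · rw [mem_PrG]
      refine ⟨⟨hm', hm⟩, ?_, hne⟩
      rcases eq_or_lt_of_le h with h4 | h4
      · exfalso
        apply hne
        rw [h4]
      · exact h4
    · simp only [h1, h2]
      rw [min_eq_right (by omega), max_eq_left (by omega)]

/-- **The pair sum** of the values of `G`. -/
lemma Sg_vals (G : ℕ → ℤ) (s z : ℤ) (K w y M : ℕ) (hpos : ∀ m ∈ Icc 1 M, 0 ≤ G m + s) :
    Sg (Qz z) K w y (vals G s M) ≤ ∑ m ∈ Icc 1 M, ∑ t ∈ Et G M m, (Cp G K w y m t - 1) := by
  obtain ⟨F, hFd⟩ : ∃ F : ℕ × ℕ → ℝ, F = fun x => Fp (Qz z) K w y (x.2 - x.1) - 1 := ⟨_, rfl⟩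
  have hF : ∀ x : ℕ × ℕ, 0 ≤ F x := by
    intro x
    have := Fp_ge (Qz z) K w y (x.2 - x.1)
    rw [hFd]
    simp only
    linarith
  have e0 : Sg (Qz z) K w y (vals G s M) = ∑ x ∈ prs (vals G s M), F x := by rw [hFd]; rfl
  rw [e0]
  obtain ⟨σ, hσ⟩ : ∃ σ : ℕ × ℕ → ℕ × ℕ, σ = fun x => (min (G x.1 + s).toNat (G x.2 + s).toNat,
      max (G x.1 + s).toNat (G x.2 + s).toNat) := ⟨_, rfl⟩
  have hsub : prs (vals G s M) ⊆ (PrG G M).image σ := by rw [hσ]; exact prs_vals G s M hpos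
  have h1 : ∑ x ∈ prs (vals G s M), F x ≤ ∑ x ∈ (PrG G M).image σ, F x :=
    sum_le_sum_of_subset_of_nonneg hsub (fun x _ _ => hF x)
  have h2 : ∑ x ∈ (PrG G M).image σ, F x ≤ ∑ x ∈ PrG G M, F (σ x) := sum_image_le' (PrG G M) σ F hF
  have h3 : ∑ x ∈ PrG G M, F (σ x) ≤ ∑ x ∈ PrG G M, (Cp G K w y x.1 (x.2 - x.1) - 1) := by
    apply sum_le_sum
    intro x hx
    rw [mem_PrG] at hx
    have h4 := Fp_le_Cp G s z K w y x.1 x.2 (G x.1 + s).toNat (G x.2 + s).toNat hx.2.1
      (Int.toNat_of_nonneg (hpos x.1 (mem_Icc.2 hx.1.1))) (Int.toNat_of_nonneg (hpos x.2 (mem_Icc.2 hx.1.2)))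
    rw [hFd, hσ]
    simp only
    linarith
  have h4 := sum_PrG G M (fun m t => Cp G K w y m t - 1)
  rw [← h4]
  exact h1.trans (h2.trans h3)

end Pool.Agent.Q236.ML
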