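import Pool.Agent.Q236.CP.Law

set_option autoImplicit false

/-!
# Sifted elements of `n + B`, `B` arbitrary: the classes modulo the small primes
-/

namespace Pool.Agent.Q236.ML

open Finset Filter Pool.Agent.H373R2.T7 Pool.Agent.W123.RP Pool.Agent.W123.RU Pool.Agent.TH464.PO
open Pool.Agent.Q236.CP

/-- the class of `a` at the primes `≤ w`, the shifts of `J` at the primes `> w` -/
def QA (Q : ℕ → ℕ → Prop) (w a : ℕ) (J : Finset ℕ) (p n : ℕ) : Prop :=
  (p ≤ w ∧ n % p ≠ a % p) ∨ (w < p ∧ QH Q J p n)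

lemma QA_small (Q : ℕ → ℕ → Prop) (w a : ℕ) (J : Finset ℕ) (p n : ℕ) (hp : p ≤ w) :
    QA Q w a J p n ↔ n % p ≠ a % p := by
  unfold QA
  constructor
  · rintro (h | h)
    · exact h.2
    · omega
  · intro h
    exact Or.inl ⟨hp, h⟩

lemma QA_large (Q : ℕ → ℕ → Prop) (w a : ℕ) (J : Finset ℕ) (p n : ℕ) (hp : w < p) :
    QA Q w a J p n ↔ QH Q J p n := by
  unfold QA
  constructor
  · rintro (h | h)
    · omega
    · exact h.2
  · intro h
    exact Or.inr ⟨hp, h⟩

lemma nuB_QA_large (Q : ℕ → ℕ → Prop) (w a : ℕ) (J : Finset ℕ) (p : ℕ) (hp : w < p) :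
    nuB (QA Q w a J) p = nuB (QH Q J) p := by
  classical
  unfold nuB
  congr 1
  apply filter_congr
  intro r _
  exact QA_large Q w a J p r hp

lemma nuB_QA_small (Q : ℕ → ℕ → Prop) (w a : ℕ) (J : Finset ℕ) (p : ℕ) (hpw : p ≤ w) (hp : 0 < p) :
    nuB (QA Q w a J) p = p - 1 := by
  classical
  unfold nuB
  have h1 : (range p).filter (fun r => QA Q w a J p r) = (range p).erase (a % p) := by
    ext r
    rw [mem_filter, mem_erase, mem_range, QA_small Q w a J p r hpw]
    constructor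
    · rintro ⟨h1, h2⟩
      rw [Nat.mod_eq_of_lt h1] at h2
      exact ⟨h2, h1⟩
    · rintro ⟨h1, h2⟩
      rw [Nat.mod_eq_of_lt h2]
      exact ⟨h2, h1⟩
  rw [h1, card_erase_of_mem (mem_range.2 (Nat.mod_lt _ hp)), card_range]

lemma perB_QA (Q : ℕ → ℕ → Prop) (c : ℕ) (hQ : PerB Q c) (w a : ℕ) (J : Finset ℕ) :
    PerB (QA Q w a J) (w + J.card * c) := by
  have hJ := perB_QH Q c hQ J
  constructor
  · intro p n
    by_cases hp : p ≤ w
    · rw [QA_small Q w a J p n hp, QA_small Q w a J p (n % p) hp, Nat.mod_mod]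
    · rw [QA_large Q w a J p n (by omega), QA_large Q w a J p (n % p) (by omega)]
      exact hJ.per p n
  · intro p hp
    by_cases hpw : p ≤ w
    · rw [nuB_QA_small Q w a J p hpw hp.pos]
      omega
    · rw [nuB_QA_large Q w a J p (by omega)]
      have := hJ.few p hp
      omega

lemma Vq_QA (Q : ℕ → ℕ → Prop) (w y a : ℕ) (J : Finset ℕ) (hwy : w ≤ y) :
    Vq (QA Q w a J) y = 1 / (Mw w : ℝ) * Vt (QH Q J) w y := by
  rw [Vq_split _ w y hwy]
  congr 1
  · unfold Vq Mw
    push_cast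
    rw [one_div, ← prod_inv_distrib]
    apply prod_congr rfl
    intro p hp
    obtain ⟨hpw, hpp⟩ := mem_pz.1 hp
    rw [nuB_QA_small Q w a J p hpw hpp.pos]
    have h0 : (0 : ℝ) < p := by exact_mod_cast hpp.pos
    rw [Nat.cast_sub hpp.one_lt.le, Nat.cast_one]
    field_simp
    ring
  · unfold Vt
    apply prod_congr rfl
    intro p hp
    rw [mem_filter] at hp
    rw [nuB_QA_large Q w a J p hp.2]

open Classical in
/-- the elements `1 ≤ n ≤ Y` in the class of `a` at all primes `≤ w` -/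
noncomputable def Ca (w a Y : ℕ) : Finset ℕ := (Icc 1 Y).filter (fun n => ∀ p ∈ pz w, n % p = a % p)

open Classical in
/-- the elements `b` of `B` with `a + b` sifted at the primes `≤ w` -/
noncomputable def Ba (Q : ℕ → ℕ → Prop) (w a : ℕ) (B : Finset ℕ) : Finset ℕ :=
  B.filter (fun b => Sf Q w (a + b))

lemma sf_class (Q : ℕ → ℕ → Prop) (c : ℕ) (hQ : PerB Q c) (w n a b : ℕ) (h : ∀ p ∈ pz w, n % p = a % p) :
    Sf Q w (n + b) ↔ Sf Q w (a + b) := by
  unfold Sf
  apply forall_congr'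
  intro p
  apply imp_congr_right
  intro hp
  rw [per_add Q c hQ p n a b b (h p hp) rfl]

lemma sf_QA (Q : ℕ → ℕ → Prop) (w y a n : ℕ) (J : Finset ℕ) (hwy : w ≤ y) :
    Sf (QA Q w a J) y n ↔ (∀ p ∈ pz w, n % p = a % p) ∧ ∀ p ∈ pz y, w < p → ¬ QH Q J p n := by
  unfold Sf
  constructor
  · intro h
    refine ⟨fun p hp => ?_, fun p hp hw => ?_⟩
    · have hp' := mem_pz.1 hp
      have := h p (mem_pz.2 ⟨by omega, hp'.2⟩)
      rw [QA_small Q w a J p n hp'.1] at this
      exact not_not.1 this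
    · have := h p hp
      rwa [QA_large Q w a J p n hw] at this
  · rintro ⟨h1, h2⟩ p hp
    have hp' := mem_pz.1 hp
    by_cases hw : p ≤ w
    · rw [QA_small Q w a J p n hw, not_not]
      exact h1 p (mem_pz.2 ⟨hw, hp'.2⟩)
    · rw [QA_large Q w a J p n (by omega)]
      exact h2 p hp (by omega)

/-- being sifted at all primes `≤ y` -/
lemma sf_split (Q : ℕ → ℕ → Prop) (w y m : ℕ) (hwy : w ≤ y) :
    Sf Q y m ↔ Sf Q w m ∧ ∀ p ∈ pz y, w < p → ¬ Q p m := by
  unfold Sf
  constructor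
  · intro h
    refine ⟨fun p hp => ?_, fun p hp _ => h p hp⟩
    have hp' := mem_pz.1 hp
    exact h p (mem_pz.2 ⟨by omega, hp'.2⟩)
  · rintro ⟨h1, h2⟩ p hp
    have hp' := mem_pz.1 hp
    by_cases hw : p ≤ w
    · exact h1 p (mem_pz.2 ⟨hw, hp'.2⟩)
    · exact h2 p hp (by omega)

open Classical in
/-- the binomial moments in a class -/
lemma moment_cls (Q : ℕ → ℕ → Prop) (c : ℕ) (hQ : PerB Q c) (w y a k Y : ℕ) (B : Finset ℕ) (hwy : w ≤ y) :
    ∑ n ∈ Ca w a Y, ((NB Q y B n).choose k : ℝ) =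
      ∑ J ∈ powersetCard k (Ba Q w a B),
        (((Icc 1 Y).filter (fun n => Sf (QA Q w a J) y n)).card : ℝ) := by
  have h1 : ∀ J ∈ powersetCard k (Ba Q w a B),
      (((Icc 1 Y).filter (fun n => Sf (QA Q w a J) y n)).card : ℝ) =
      ∑ n ∈ Ca w a Y, if (∀ p ∈ pz y, w < p → ¬ QH Q J p n) then (1 : ℝ) else 0 := by
    intro J _
    unfold Ca
    rw [Finset.sum_ite, Finset.sum_const_zero, add_zero, Finset.sum_const, nsmul_eq_mul, mul_one,
      Finset.filter_filter]
    congr 2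
    apply Finset.filter_congr
    intro n _
    exact sf_QA Q w y a n J hwy
  rw [Finset.sum_congr rfl h1, Finset.sum_comm]
  apply Finset.sum_congr rfl
  intro n hn
  unfold Ca at hn
  rw [mem_filter] at hn
  rw [Finset.sum_ite, Finset.sum_const_zero, add_zero, Finset.sum_const, nsmul_eq_mul, mul_one]
  unfold NB
  rw [← Finset.card_powersetCard]
  congr 2
  ext J
  rw [mem_filter, mem_powersetCard, mem_powersetCard]
  unfold Ba
  constructor
  · rintro ⟨a1, a2⟩
    refine ⟨⟨fun b hb => ?_, a2⟩, ?_⟩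
    · have h3 := mem_filter.1 (a1 hb)
      rw [mem_filter]
      refine ⟨h3.1, ?_⟩
      rw [← sf_class Q c hQ w n a b hn.2]
      exact ((sf_split Q w y (n + b) hwy).1 h3.2).1
    · rintro p hp hw ⟨b, hb, hq⟩
      have h3 := mem_filter.1 (a1 hb)
      exact h3.2 p hp hq
  · rintro ⟨⟨a1, a2⟩, a3⟩
    refine ⟨fun b hb => ?_, a2⟩
    have h3 := mem_filter.1 (a1 hb)
    rw [mem_filter]
    refine ⟨h3.1, ?_⟩
    rw [sf_split Q w y (n + b) hwy]
    refine ⟨(sf_class Q c hQ w n a b hn.2).2 h3.2, ?_⟩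
    intro p hp hw hq
    exact a3 p hp hw ⟨b, hb, hq⟩

open Classical in
/-- few sets contain two given elements -/
lemma card_two (k : ℕ) (B : Finset ℕ) (a b : ℕ) (hab : a ≠ b) :
    ((powersetCard k B).filter (fun J => a ∈ J ∧ b ∈ J)).card ≤ B.card ^ (k - 2) := by
  rcases Nat.lt_or_ge k 2 with hk | hk
  · have : (powersetCard k B).filter (fun J => a ∈ J ∧ b ∈ J) = ∅ := by
      rw [filter_eq_empty_iff]
      rintro J hJ ⟨h1, h2⟩
      rw [mem_powersetCard] at hJ
      have h3 : ({a, b} : Finset ℕ) ⊆ J := by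
        intro x hx
        rw [mem_insert, mem_singleton] at hx
        rcases hx with rfl | rfl
        · exact h1
        · exact h2
      have h4 := card_le_card h3
      rw [card_pair hab] at h4
      omega
    rw [this, card_empty]
    exact Nat.zero_le _
  · have h4 : ((powersetCard k B).filter (fun J => a ∈ J ∧ b ∈ J)).card ≤ (powersetCard (k - 2) B).card := by
      apply card_le_card_of_injOn (fun I => (I.erase a).erase b)
      · intro I hI
        rw [mem_coe, mem_filter, mem_powersetCard] at hI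
        obtain ⟨⟨a1, a2⟩, a3, a4⟩ := hI
        rw [mem_coe, mem_powersetCard]
        refine ⟨(erase_subset _ _).trans ((erase_subset _ _).trans a1), ?_⟩
        rw [card_erase_of_mem (mem_erase.2 ⟨hab.symm, a4⟩), card_erase_of_mem a3, a2]
        omega
      · intro I hI J hJ hIJ
        rw [mem_coe, mem_filter] at hI hJ
        simp only at hIJ
        ext x
        by_cases hxi : x = a
        · rw [hxi]
          exact ⟨fun _ => hJ.2.1, fun _ => hI.2.1⟩
        · by_cases hxj : x = b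
          · rw [hxj]
            exact ⟨fun _ => hJ.2.2, fun _ => hI.2.2⟩
          · have h5 : x ∈ (I.erase a).erase b ↔ x ∈ (J.erase a).erase b := by rw [hIJ]
            simp only [mem_erase] at h5
            tauto
    refine h4.trans ?_
    rw [card_powersetCard]
    exact Nat.choose_le_pow _ _

open Classical in
/-- double counting of pairs -/
lemma sum_prs_le (k : ℕ) (B : Finset ℕ) (g : ℕ × ℕ → ℝ) (hg : ∀ x, 0 ≤ g x) :
    ∑ J ∈ powersetCard k B, ∑ x ∈ prs J, g x ≤ (B.card : ℝ) ^ (k - 2) * ∑ x ∈ prs B, g x := by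
  have h1 : ∀ J ∈ powersetCard k B, ∑ x ∈ prs J, g x =
      ∑ x ∈ prs B, if (x.1 ∈ J ∧ x.2 ∈ J) then g x else 0 := by
    intro J hJ
    rw [mem_powersetCard] at hJ
    rw [← Finset.sum_filter]
    apply Finset.sum_congr _ (fun _ _ => rfl)
    unfold prs
    ext x
    simp only [mem_filter, mem_product]
    constructor
    · rintro ⟨⟨h2, h3⟩, h4⟩
      exact ⟨⟨⟨hJ.1 h2, hJ.1 h3⟩, h4⟩, h2, h3⟩
    · rintro ⟨⟨_, h4⟩, h2, h3⟩
      exact ⟨⟨h2, h3⟩, h4⟩
  rw [Finset.sum_congr rfl h1, Finset.sum_comm, Finset.mul_sum]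
  apply Finset.sum_le_sum
  intro x hx
  unfold prs at hx
  rw [mem_filter] at hx
  rw [← Finset.sum_filter, Finset.sum_const, nsmul_eq_mul]
  apply mul_le_mul_of_nonneg_right _ (hg x)
  exact_mod_cast card_two k B x.1 x.2 (by omega)

/-- `n ^ k / k!` and the binomial coefficient -/
lemma choose_near (n k : ℕ) : |(n.choose k : ℝ) - (n : ℝ) ^ k / k.factorial| ≤ k ^ 2 * (n : ℝ) ^ (k - 1) := by
  have hfac : (1 : ℝ) ≤ k.factorial := by exact_mod_cast Nat.factorial_pos k
  have hn0 : (0 : ℝ) ≤ n := Nat.cast_nonneg n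
  rcases k with _ | k
  · simp
  · rw [Nat.add_sub_cancel]
    rcases Nat.lt_or_ge n (k + 1) with h | h
    · rw [Nat.choose_eq_zero_of_lt h, Nat.cast_zero, zero_sub, abs_neg, abs_of_nonneg (by positivity), pow_succ]
      have h2 : (n : ℝ) ≤ (k + 1 : ℕ) := by exact_mod_cast h.le
      have h3 : (1 : ℝ) ≤ ((k + 1 : ℕ) : ℝ) := by
        push_cast
        have : (0 : ℝ) ≤ k := Nat.cast_nonneg k
        linarith
      calc (n : ℝ) ^ k * n / (k + 1).factorial ≤ (n : ℝ) ^ k * n := div_le_self (by positivity) hfac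
        _ ≤ (n : ℝ) ^ k * ((k + 1 : ℕ) : ℝ) ^ 2 := by
          apply mul_le_mul_of_nonneg_left _ (by positivity)
          nlinarith
        _ = _ := mul_comm _ _
    · have hch := choose_bounds n (k + 1) n 0 (by simp) (by
        rw [zero_add]
        exact_mod_cast h)
      rw [sub_zero, add_zero] at hch
      have hNpos : (0 : ℝ) < n := by exact_mod_cast (by omega : 0 < n)
      have hkr : ((k + 1 : ℕ) : ℝ) ≤ n := by exact_mod_cast h
      have hbern : (n : ℝ) ^ (k + 1) - ((k + 1 : ℕ) : ℝ) ^ 2 * (n : ℝ) ^ k ≤ ((n : ℝ) - ((k + 1 : ℕ) : ℝ)) ^ (k + 1) := by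
        have h1 := one_add_mul_le_pow (a := -(((k + 1 : ℕ) : ℝ) / n)) (by
          have : ((k + 1 : ℕ) : ℝ) / n ≤ 1 := by
            rw [div_le_one hNpos]
            exact hkr
          linarith) (k + 1)
        have h2 : (n : ℝ) - ((k + 1 : ℕ) : ℝ) = n * (1 + -(((k + 1 : ℕ) : ℝ) / n)) := by
          field_simp
          ring
        rw [h2, mul_pow]
        refine le_trans (le_of_eq ?_) (mul_le_mul_of_nonneg_left h1 (by positivity))
        field_simp
        ring
      have h3 : (n : ℝ) ^ (k + 1) / (k + 1).factorial - ((k + 1 : ℕ) : ℝ) ^ 2 * (n : ℝ) ^ k ≤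
          ((n : ℝ) - ((k + 1 : ℕ) : ℝ)) ^ (k + 1) / (k + 1).factorial := by
        rw [le_div_iff₀ (by linarith), sub_mul, div_mul_cancel₀ _ (by positivity)]
        have h4 : ((k + 1 : ℕ) : ℝ) ^ 2 * (n : ℝ) ^ k * 1 ≤
            ((k + 1 : ℕ) : ℝ) ^ 2 * (n : ℝ) ^ k * ((k + 1).factorial : ℝ) := by
          gcongr
        linarith
      rw [abs_le]
      constructor
      · linarith [hch.1]
      · have : 0 ≤ ((k + 1 : ℕ) : ℝ) ^ 2 * (n : ℝ) ^ k := by positivity
        linarith [hch.2]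

open Classical in
/-- the average of the large singular factors over the subsets of `B` -/
lemma sing_cls (Q : ℕ → ℕ → Prop) (c : ℕ) (hQ : PerB Q c) (w y k R : ℕ) (hk : k ≤ R) (hw : 1 ≤ w)
    (hbig : 2 * (R * c) ≤ w) (B : Finset ℕ) :
    |∑ J ∈ powersetCard k B, Vt (QH Q J) w y - (B.card * Vt Q w y) ^ k / k.factorial| ≤
      (1 + B.card * Vt Q w y) ^ R * (((R * c : ℕ) : ℝ) ^ 2 / w + R ^ 2 * Vt Q w y + Vt Q w y ^ 2 *
        ∑ x ∈ prs B, (Fp Q ((1 + 2 * (R * c)) ^ (R ^ 2) - 1) w y (x.2 - x.1) - 1)) := by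
  obtain ⟨V, hV⟩ : ∃ V, V = Vt Q w y := ⟨_, rfl⟩
  have hV0 : 0 ≤ V := by rw [hV]; exact Vt_nonneg Q w y
  obtain ⟨g, hg⟩ : ∃ g : ℕ → ℝ, g = fun t => Fp Q ((1 + 2 * (R * c)) ^ (R ^ 2) - 1) w y t - 1 := ⟨_, rfl⟩
  have hg0 : ∀ t, 0 ≤ g t := by
    intro t
    rw [hg]
    have := Fp_ge Q ((1 + 2 * (R * c)) ^ (R ^ 2) - 1) w y t
    simp only
    linarith
  have hgx : ∑ x ∈ prs B, (Fp Q ((1 + 2 * (R * c)) ^ (R ^ 2) - 1) w y (x.2 - x.1) - 1) =
      ∑ x ∈ prs B, g (x.2 - x.1) := by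
    rw [hg]
  rw [hgx, ← hV]
  obtain ⟨S, hS⟩ : ∃ S, S = ∑ x ∈ prs B, g (x.2 - x.1) := ⟨_, rfl⟩
  have hS0 : 0 ≤ S := by rw [hS]; exact sum_nonneg fun x _ => hg0 _
  rw [← hS]
  have hwr : (0 : ℝ) < w := by exact_mod_cast hw
  have hcard : ((powersetCard k B).card : ℝ) = B.card.choose k := by rw [card_powersetCard]
  obtain ⟨E, hE⟩ : ∃ E : ℝ, E = ((R * c : ℕ) : ℝ) ^ 2 / w := ⟨_, rfl⟩
  have hE0 : 0 ≤ E := by rw [hE]; positivity
  rw [← hE]
  have hlow : V ^ k * (1 - E) * B.card.choose k ≤ ∑ J ∈ powersetCard k B, Vt (QH Q J) w y := by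
    have h1 : ∀ J ∈ powersetCard k B, V ^ k * (1 - E) ≤ Vt (QH Q J) w y := by
      intro J hJ
      rw [mem_powersetCard] at hJ
      have h2 := tail_lo Q c hQ J w y hw (by
        rw [hJ.2]
        have : k * c ≤ R * c := Nat.mul_le_mul_right _ hk
        omega)
      rw [hJ.2, ← hV] at h2
      refine le_trans ?_ h2
      apply mul_le_mul_of_nonneg_left _ (by positivity)
      rw [hE]
      have h3 : ((k * c : ℕ) : ℝ) ^ 2 / w ≤ ((R * c : ℕ) : ℝ) ^ 2 / w := by
        apply div_le_div_of_nonneg_right _ hwr.le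
        apply pow_le_pow_left₀ (Nat.cast_nonneg _)
        exact_mod_cast Nat.mul_le_mul_right c hk
      linarith
    have h2 := card_nsmul_le_sum (powersetCard k B) (fun J => Vt (QH Q J) w y) _ h1
    rw [nsmul_eq_mul, hcard, mul_comm] at h2
    exact h2
  have hup : ∑ J ∈ powersetCard k B, Vt (QH Q J) w y ≤
      V ^ k * B.card.choose k + V ^ k * ∑ J ∈ powersetCard k B, ∑ x ∈ prs J, g (x.2 - x.1) := by
    have h1 : ∀ J ∈ powersetCard k B, Vt (QH Q J) w y ≤ V ^ k * (1 + ∑ x ∈ prs J, g (x.2 - x.1)) := by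
      intro J hJ
      rw [mem_powersetCard] at hJ
      have h2 := tail_up Q c hQ J w y (by
        rw [hJ.2]
        have : k * c ≤ R * c := Nat.mul_le_mul_right _ hk
        omega)
      rw [hJ.2, ← hV] at h2
      refine h2.trans ?_
      apply mul_le_mul_of_nonneg_left _ (by positivity)
      apply add_le_add le_rfl
      apply sum_le_sum
      intro x _
      rw [hg]
      have h3 := Fp_mono Q ((1 + 2 * (k * c)) ^ (k ^ 2) - 1) ((1 + 2 * (R * c)) ^ (R ^ 2) - 1) w y (x.2 - x.1) (by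
        apply Nat.sub_le_sub_right
        calc (1 + 2 * (k * c)) ^ (k ^ 2) ≤ (1 + 2 * (R * c)) ^ (k ^ 2) := by
              apply Nat.pow_le_pow_left
              have : k * c ≤ R * c := Nat.mul_le_mul_right _ hk
              omega
          _ ≤ (1 + 2 * (R * c)) ^ (R ^ 2) :=
              Nat.pow_le_pow_right (by omega) (Nat.pow_le_pow_left hk 2))
      simp only
      linarith
    refine (sum_le_sum h1).trans ?_
    rw [← mul_sum, sum_add_distrib, sum_const, nsmul_eq_mul, mul_one, hcard, mul_add]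
  -- the powers
  have hB0 : (0 : ℝ) ≤ B.card := Nat.cast_nonneg _
  obtain ⟨L, hL⟩ : ∃ L : ℝ, L = B.card * V := ⟨_, rfl⟩
  have hL0 : 0 ≤ L := by rw [hL]; positivity
  rw [← hL]
  have hP : ∀ j : ℕ, j ≤ R → L ^ j ≤ (1 + L) ^ R := by
    intro j hj
    calc L ^ j ≤ (1 + L) ^ j := pow_le_pow_left₀ hL0 (by linarith) j
      _ ≤ (1 + L) ^ R := pow_le_pow_right₀ (by linarith) hj
  have hP0 : 0 ≤ (1 + L) ^ R := by positivity
  have hkR : (k : ℝ) ≤ R := by exact_mod_cast hk
  have hk0 : (0 : ℝ) ≤ k := Nat.cast_nonneg k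
  have hnear := choose_near B.card k
  have hdiff : |V ^ k * B.card.choose k - L ^ k / k.factorial| ≤ (1 + L) ^ R * (R ^ 2 * V) := by
    have e1 : V ^ k * B.card.choose k - L ^ k / k.factorial =
        V ^ k * ((B.card.choose k : ℝ) - (B.card : ℝ) ^ k / k.factorial) := by
      rw [hL, mul_pow]
      ring
    rw [e1, abs_mul, abs_of_nonneg (by positivity : 0 ≤ V ^ k)]
    rcases k with _ | k
    · simp
      positivity
    · calc V ^ (k + 1) * |(B.card.choose (k + 1) : ℝ) - (B.card : ℝ) ^ (k + 1) / (k + 1).factorial| ≤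
            V ^ (k + 1) * (((k + 1 : ℕ) : ℝ) ^ 2 * (B.card : ℝ) ^ (k + 1 - 1)) :=
            mul_le_mul_of_nonneg_left hnear (by positivity)
        _ = L ^ k * (((k + 1 : ℕ) : ℝ) ^ 2 * V) := by
            rw [Nat.add_sub_cancel, hL, mul_pow, pow_succ]
            ring
        _ ≤ (1 + L) ^ R * (R ^ 2 * V) := by
            apply mul_le_mul (hP k (by omega)) _ (by positivity) hP0
            apply mul_le_mul_of_nonneg_right _ hV0
            exact pow_le_pow_left₀ (by positivity) hkR 2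
  have hchoose : V ^ k * B.card.choose k ≤ (1 + L) ^ R := by
    calc V ^ k * B.card.choose k ≤ V ^ k * (B.card : ℝ) ^ k := by
          apply mul_le_mul_of_nonneg_left _ (by positivity)
          exact_mod_cast Nat.choose_le_pow B.card k
      _ = L ^ k := by rw [hL, mul_pow, mul_comm]
      _ ≤ _ := hP k hk
  have hpairs : V ^ k * ∑ J ∈ powersetCard k B, ∑ x ∈ prs J, g (x.2 - x.1) ≤ (1 + L) ^ R * (V ^ 2 * S) := by
    rcases Nat.lt_or_ge k 2 with h | h
    · have h0 : ∑ J ∈ powersetCard k B, ∑ x ∈ prs J, g (x.2 - x.1) = 0 := by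
        apply sum_eq_zero
        intro J hJ
        rw [mem_powersetCard] at hJ
        have h1 : prs J = ∅ := by
          unfold prs
          rw [filter_eq_empty_iff]
          rintro ⟨a, b⟩ hx hab
          rw [mem_product] at hx
          simp only at hx hab
          have h3 : ({a, b} : Finset ℕ) ⊆ J := by
            intro x hx'
            rw [mem_insert, mem_singleton] at hx'
            rcases hx' with rfl | rfl
            · exact hx.1
            · exact hx.2
          have h4 := card_le_card h3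
          rw [card_pair (by omega : a ≠ b)] at h4
          omega
        rw [h1, sum_empty]
      rw [h0, mul_zero]
      positivity
    · have h1 := sum_prs_le k B (fun x => g (x.2 - x.1)) (fun x => hg0 _)
      rw [← hS] at h1
      refine (mul_le_mul_of_nonneg_left h1 (by positivity)).trans ?_
      obtain ⟨j, rfl⟩ := Nat.exists_eq_add_of_le h
      have e2 : V ^ (2 + j) * ((B.card : ℝ) ^ (2 + j - 2) * S) = L ^ j * (V ^ 2 * S) := by
        rw [Nat.add_sub_cancel_left, hL, mul_pow, pow_add]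
        ring
      rw [e2]
      exact mul_le_mul_of_nonneg_right (hP j (by omega)) (by positivity)
  rw [abs_le] at hdiff ⊢
  have hE1 : E * (V ^ k * B.card.choose k) ≤ E * (1 + L) ^ R := mul_le_mul_of_nonneg_left hchoose hE0
  have hVS : 0 ≤ (1 + L) ^ R * (V ^ 2 * S) := by positivity
  have hEP : 0 ≤ E * (1 + L) ^ R := by positivity
  constructor
  · nlinarith [hdiff.1, hlow]
  · nlinarith [hdiff.2, hup]

end Pool.Agent.Q236.ML
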