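import Pool.Agent.Q236.ML.Cls

set_option autoImplicit false

/-!
# The Poisson law in one class modulo the small primes
-/

namespace Pool.Agent.Q236.ML

open Finset Filter Pool.Agent.H373R2.T7 Pool.Agent.W123.RP Pool.Agent.W123.RU Pool.Agent.TH464.PO
open Pool.Agent.Q236.CP

/-- the weight of a finite set under the Poisson law -/
noncomputable def Po (x : ℝ) (A : Finset ℕ) : ℝ := ∑ j ∈ A, Real.exp (-x) * x ^ j / j.factorial

/-- the error term in `sing_cls` -/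
noncomputable def Sg (Q : ℕ → ℕ → Prop) (K w y : ℕ) (B : Finset ℕ) : ℝ :=
  ∑ x ∈ prs B, (Fp Q K w y (x.2 - x.1) - 1)

lemma Sg_nonneg (Q : ℕ → ℕ → Prop) (K w y : ℕ) (B : Finset ℕ) : 0 ≤ Sg Q K w y B := by
  unfold Sg
  apply sum_nonneg
  intro x _
  have := Fp_ge Q K w y (x.2 - x.1)
  linarith

lemma Ba_sub (Q : ℕ → ℕ → Prop) (w a : ℕ) (B : Finset ℕ) : Ba Q w a B ⊆ B := by
  classical
  unfold Ba
  exact filter_subset _ _

open Classical in
/-- the moments in one class -/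
lemma moment_N (c R w : ℕ) (hw : 1 ≤ w) (η1 : ℝ) (hη1 : 0 < η1) : ∃ K0 y0 : ℕ, 1 ≤ K0 ∧
    ∀ (Q : ℕ → ℕ → Prop) (y Y a : ℕ) (B : Finset ℕ), PerB Q c → w ≤ y → y0 ≤ y → y ^ K0 ≤ Y →
      ∀ k : ℕ, k ≤ R → |∑ n ∈ Ca w a Y, ((NB Q y B n).choose k : ℝ) -
        Y / Mw w * ∑ J ∈ powersetCard k (Ba Q w a B), Vt (QH Q J) w y| ≤
        η1 * (Y / Mw w * ∑ J ∈ powersetCard k (Ba Q w a B), Vt (QH Q J) w y) +
          (B.card : ℝ) ^ k * √(Y : ℝ) := by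
  obtain ⟨K0, x0, hK0, hfund⟩ := sys_fund (w + R * c) (by omega) η1 hη1
  refine ⟨K0, x0, hK0, ?_⟩
  intro Q y Y a B hQ hwy hy hyY k hk
  rw [moment_cls Q c hQ w y a k Y B hwy]
  have e : (Y : ℝ) / Mw w * ∑ J ∈ powersetCard k (Ba Q w a B), Vt (QH Q J) w y =
      ∑ J ∈ powersetCard k (Ba Q w a B), (Y : ℝ) * Vq (QA Q w a J) y := by
    rw [mul_sum]
    apply sum_congr rfl
    intro J _
    rw [Vq_QA Q w y a J hwy]
    ring
  rw [e, ← Finset.sum_sub_distrib]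
  refine (Finset.abs_sum_le_sum_abs _ _).trans ?_
  have h2 : ∀ J ∈ powersetCard k (Ba Q w a B),
      |(((Icc 1 Y).filter (fun n => Sf (QA Q w a J) y n)).card : ℝ) - Y * Vq (QA Q w a J) y| ≤
      η1 * (Y * Vq (QA Q w a J) y) + √(Y : ℝ) := by
    intro J hJ
    rw [mem_powersetCard] at hJ
    have hper : PerB (QA Q w a J) (w + R * c) := by
      apply perB_mono (perB_QA Q c hQ w a J)
      rw [hJ.2]
      have := Nat.mul_le_mul_right c hk
      omega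
    have h3 := hfund Y y hy hyY (QA Q w a J) hper Y
    have e1 : ∏ p ∈ pz y, (1 - (nuB (QA Q w a J) p : ℝ) / p) = Vq (QA Q w a J) y := rfl
    rw [e1] at h3
    unfold Sf
    convert h3
  refine (Finset.sum_le_sum h2).trans ?_
  rw [Finset.sum_add_distrib, ← Finset.mul_sum, Finset.sum_const, nsmul_eq_mul]
  have h3 : ((powersetCard k (Ba Q w a B)).card : ℝ) ≤ (B.card : ℝ) ^ k := by
    have h4 : (powersetCard k (Ba Q w a B)).card ≤ B.card ^ k := by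
      refine (card_le_card (powersetCard_mono (Ba_sub Q w a B))).trans ?_
      rw [card_powersetCard]
      exact Nat.choose_le_pow B.card k
    exact_mod_cast h4
  have h4 := mul_le_mul_of_nonneg_right h3 (Real.sqrt_nonneg (Y : ℝ))
  linarith

/-- fourth roots -/
lemma root_small (G M η : ℝ) (hG : 0 ≤ G) (hM : 0 < M) (hη : 0 < η) : ∃ y0 : ℕ, 1 ≤ y0 ∧ ∀ Y : ℕ, y0 ≤ Y →
    ∀ b : ℝ, 0 ≤ b → b ^ 4 ≤ Y → (b + G) * √(Y : ℝ) ≤ η * (Y / M) := by
  obtain ⟨m, hm⟩ := exists_nat_ge (max 1 ((1 + G) * M / η))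
  refine ⟨m ^ 4, Nat.one_le_pow _ _ (by
    have : (1 : ℝ) ≤ m := (le_max_left _ _).trans hm
    exact_mod_cast this), ?_⟩
  intro Y hY b hb hbY
  have hm1 : (1 : ℝ) ≤ m := (le_max_left _ _).trans hm
  have hm2 : (1 + G) * M / η ≤ m := (le_max_right _ _).trans hm
  have hY0 : (0 : ℝ) ≤ Y := Nat.cast_nonneg Y
  obtain ⟨z, hz⟩ : ∃ z, z = √(√(Y : ℝ)) := ⟨_, rfl⟩
  have hz0 : 0 ≤ z := by rw [hz]; exact Real.sqrt_nonneg _
  have hz2 : z ^ 2 = √(Y : ℝ) := by rw [hz]; exact Real.sq_sqrt (Real.sqrt_nonneg _)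
  have hz4 : z ^ 4 = Y := by
    have : z ^ 4 = (z ^ 2) ^ 2 := by ring
    rw [this, hz2]
    exact Real.sq_sqrt hY0
  have hmz : (m : ℝ) ≤ z := by
    apply le_of_pow_le_pow_left₀ (n := 4) (by norm_num) hz0
    rw [hz4]
    exact_mod_cast hY
  have hbz : b ≤ z := by
    apply le_of_pow_le_pow_left₀ (n := 4) (by norm_num) hz0
    rw [hz4]
    exact hbY
  have h1 : (1 + G) * M ≤ η * z := by
    rw [div_le_iff₀ hη] at hm2
    nlinarith
  rw [← hz2, ← hz4, ← mul_div_assoc, le_div_iff₀ hM]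
  have h2 : b + G ≤ (1 + G) * z := by nlinarith
  calc (b + G) * z ^ 2 * M ≤ (1 + G) * z * z ^ 2 * M := by gcongr
    _ = (1 + G) * M * z ^ 3 := by ring
    _ ≤ η * z * z ^ 3 := by gcongr
    _ = _ := by ring

open Classical in
/-- **The Poisson law in one class** modulo the small primes. -/
theorem cls_law (c : ℕ) (Λ ε : ℝ) (hΛ : 0 ≤ Λ) (hε : 0 < ε) :
    ∃ (R w0 : ℕ) (η3 : ℝ), 1 ≤ w0 ∧ 0 < η3 ∧ ∀ w : ℕ, w0 ≤ w → ∃ K0 y0 : ℕ, 1 ≤ K0 ∧
      ∀ (Q : ℕ → ℕ → Prop) (y Y a : ℕ) (B : Finset ℕ), PerB Q c → w ≤ y → y0 ≤ y → y ^ K0 ≤ Y →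
      B.card ^ (4 * R) ≤ Y → Vt Q w y ≤ η3 → (Ba Q w a B).card * Vt Q w y ≤ Λ →
      Vt Q w y ^ 2 * Sg Q ((1 + 2 * (R * c)) ^ (R ^ 2) - 1) w y (Ba Q w a B) ≤ η3 →
      ∀ A : Finset ℕ, |(((Ca w a Y).filter (fun n => NB Q y B n ∈ A)).card : ℝ) -
        (Ca w a Y).card * Po ((Ba Q w a B).card * Vt Q w y) A| ≤ ε * (Ca w a Y).card := by
  obtain ⟨R, η0, hη0, htv⟩ := law_tv Λ ε hΛ hε
  obtain ⟨η, hη⟩ : ∃ η : ℝ, η = min η0 1 := ⟨_, rfl⟩
  have hηpos : 0 < η := by rw [hη]; positivity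
  have hηη : η ≤ η0 := by rw [hη]; exact min_le_left _ _
  have hη1 : η ≤ 1 := by rw [hη]; exact min_le_right _ _
  obtain ⟨G, hG⟩ : ∃ G : ℝ, G = (1 + Λ) ^ R := ⟨_, rfl⟩
  have hG1 : 1 ≤ G := by rw [hG]; exact one_le_pow₀ (by linarith)
  obtain ⟨δ, hδ⟩ : ∃ δ : ℝ, δ = η / (32 * G ^ 2) := ⟨_, rfl⟩
  have hδ0 : 0 < δ := by rw [hδ]; positivity
  have hδGG : G * (G * δ) = η / 32 := by rw [hδ]; field_simp
  have hGδ : δ ≤ G * δ := by nlinarith
  have hGδ2 : G * δ ≤ G * (G * δ) := by nlinarith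
  have hδ1 : δ ≤ 1 / 32 := by linarith
  obtain ⟨m, hm⟩ := exists_nat_ge (3 * G * ((R * c : ℕ) : ℝ) ^ 2 / δ)
  obtain ⟨η3, hη3⟩ : ∃ η3 : ℝ, η3 = δ / (3 * G * (R ^ 2 + 1)) := ⟨_, rfl⟩
  have hη30 : 0 < η3 := by rw [hη3]; positivity
  have hη3G : 3 * (G * ((R ^ 2 + 1) * η3)) = δ := by rw [hη3]; field_simp
  refine ⟨R, max (max 1 m) (2 * (R * c)), η3, by omega, hη30, ?_⟩
  intro w hw
  have hw1 : 1 ≤ w := by omega
  have hwm : m ≤ w := by omega
  have hwR : 2 * (R * c) ≤ w := by omega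
  have hw0 : (0 : ℝ) < w := by exact_mod_cast hw1
  have hwr : 3 * (G * (((R * c : ℕ) : ℝ) ^ 2 / w)) ≤ δ := by
    have h1 : 3 * G * ((R * c : ℕ) : ℝ) ^ 2 / δ ≤ w := hm.trans (by exact_mod_cast hwm)
    rw [div_le_iff₀ hδ0] at h1
    rw [← mul_div_assoc, ← mul_div_assoc, div_le_iff₀ hw0]
    linarith
  obtain ⟨K0, y0, hK0, hmom⟩ := moment_N c R w hw1 δ hδ0
  have hMw : (0 : ℝ) < Mw w := by exact_mod_cast Mw_pos w
  obtain ⟨y1, hy1, hroot⟩ := root_small (G + 1) (Mw w) (η / 8) (by linarith) hMw (by positivity)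
  refine ⟨K0, max y0 y1, hK0, ?_⟩
  intro Q y Y a B hQ hwy hy hyY hBY hVt hlam hS
  obtain ⟨x, hx⟩ : ∃ x, x = (Ba Q w a B).card * Vt Q w y := ⟨_, rfl⟩
  rw [← hx] at hlam
  rw [← hx]
  have hVt0 := Vt_nonneg Q w y
  have hx0 : 0 ≤ x := by rw [hx]; positivity
  obtain ⟨N, hN⟩ : ∃ N : ℝ, N = Y / Mw w := ⟨_, rfl⟩
  have hY0 : (0 : ℝ) ≤ Y := Nat.cast_nonneg Y
  have hN0 : 0 ≤ N := by rw [hN]; positivity
  have hyY1 : y ≤ Y := by
    have h1 : y ^ 1 ≤ y ^ K0 := Nat.pow_le_pow_right (by omega) hK0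
    rw [pow_one] at h1
    omega
  have hb := hroot Y (by omega) ((B.card : ℝ) ^ R) (by positivity) (by
    rw [← pow_mul, mul_comm R 4]
    exact_mod_cast hBY)
  rw [← hN] at hb
  have hsq0 := Real.sqrt_nonneg (Y : ℝ)
  -- the sums over the sets of shifts
  have hT : ∀ k ≤ R, |∑ J ∈ powersetCard k (Ba Q w a B), Vt (QH Q J) w y - x ^ k / k.factorial| ≤ δ := by
    intro k hk
    have h1 := sing_cls Q c hQ w y k R hk hw1 hwR (Ba Q w a B)
    rw [← hx] at h1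
    refine h1.trans ?_
    have h2 : (1 + x) ^ R ≤ G := by
      rw [hG]
      exact pow_le_pow_left₀ (by linarith) (by linarith) R
    have h3 : ((R * c : ℕ) : ℝ) ^ 2 / w + R ^ 2 * Vt Q w y + Vt Q w y ^ 2 *
        ∑ x ∈ prs (Ba Q w a B), (Fp Q ((1 + 2 * (R * c)) ^ (R ^ 2) - 1) w y (x.2 - x.1) - 1) ≤
        ((R * c : ℕ) : ℝ) ^ 2 / w + (R ^ 2 + 1) * η3 := by
      have h4 : (R : ℝ) ^ 2 * Vt Q w y ≤ R ^ 2 * η3 := mul_le_mul_of_nonneg_left hVt (by positivity)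
      unfold Sg at hS
      linarith
    have h5 : 0 ≤ ((R * c : ℕ) : ℝ) ^ 2 / w + (R ^ 2 + 1) * η3 := by positivity
    calc _ ≤ (1 + x) ^ R * (((R * c : ℕ) : ℝ) ^ 2 / w + (R ^ 2 + 1) * η3) :=
          mul_le_mul_of_nonneg_left h3 (by positivity)
      _ ≤ G * (((R * c : ℕ) : ℝ) ^ 2 / w + (R ^ 2 + 1) * η3) := mul_le_mul_of_nonneg_right h2 h5
      _ ≤ δ := by linarith
  have hmo : ∀ k ≤ R, |∑ n ∈ Ca w a Y, ((NB Q y B n).choose k : ℝ) - N * (x ^ k / k.factorial)| ≤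
      N * (δ * (G + 1) + δ) + (B.card : ℝ) ^ k * √(Y : ℝ) := by
    intro k hk
    have h1 := hmom Q y Y a B hQ hwy ((le_max_left _ _).trans hy) hyY k hk
    rw [← hN] at h1
    obtain ⟨T, hTT⟩ : ∃ T, T = ∑ J ∈ powersetCard k (Ba Q w a B), Vt (QH Q J) w y := ⟨_, rfl⟩
    have h2 := hT k hk
    rw [← hTT] at h1 h2
    have hP : x ^ k / k.factorial ≤ G := by
      have hfac : (1 : ℝ) ≤ k.factorial := by exact_mod_cast Nat.factorial_pos k
      calc x ^ k / k.factorial ≤ x ^ k := div_le_self (by positivity) hfac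
        _ ≤ (1 + Λ) ^ k := pow_le_pow_left₀ hx0 (by linarith) k
        _ ≤ (1 + Λ) ^ R := pow_le_pow_right₀ (by linarith) hk
        _ = G := hG.symm
    have hTG : T ≤ G + 1 := by
      have := (abs_le.1 h2).2
      linarith
    have h3 : |N * T - N * (x ^ k / k.factorial)| ≤ N * δ := by
      rw [← mul_sub, abs_mul, abs_of_nonneg hN0]
      exact mul_le_mul_of_nonneg_left h2 hN0
    have h4 := abs_sub_le (∑ n ∈ Ca w a Y, ((NB Q y B n).choose k : ℝ)) (N * T) (N * (x ^ k / k.factorial))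
    have h5 : δ * (N * T) ≤ N * (δ * (G + 1)) := by
      have : N * T ≤ N * (G + 1) := mul_le_mul_of_nonneg_left hTG hN0
      nlinarith
    linarith
  have hCa : |((Ca w a Y).card : ℝ) - N| ≤ N * (δ * (G + 1) + δ) + √(Y : ℝ) := by
    have h1 := hmo 0 (Nat.zero_le R)
    simpa using h1
  have hb0 : 0 ≤ (B.card : ℝ) ^ R * √(Y : ℝ) := by positivity
  have hGs0 : 0 ≤ G * √(Y : ℝ) := by positivity
  have hδG2 : δ * (G + 1) + δ ≤ 3 * (G * δ) := by nlinarith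
  have hNδ : N * (δ * (G + 1) + δ) ≤ 3 / 32 * η * N := by
    calc N * (δ * (G + 1) + δ) ≤ N * (3 * (G * (G * δ))) :=
          mul_le_mul_of_nonneg_left (hδG2.trans (by linarith)) hN0
      _ = 3 / 32 * η * N := by rw [hδGG]; ring
  have hNδG : G * (N * (δ * (G + 1) + δ)) ≤ 3 / 32 * η * N := by
    calc G * (N * (δ * (G + 1) + δ)) ≤ G * (N * (3 * (G * δ))) := by
          apply mul_le_mul_of_nonneg_left _ (by linarith)
          exact mul_le_mul_of_nonneg_left hδG2 hN0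
      _ = 3 * N * (G * (G * δ)) := by ring
      _ = 3 / 32 * η * N := by rw [hδGG]; ring
  have hηN : η * N ≤ N := by nlinarith
  have hCa2 : N ≤ 2 * (Ca w a Y).card := by
    have := (abs_le.1 hCa).1
    linarith
  unfold Po
  apply htv (Ca w a Y) (NB Q y B) x hx0 hlam
  intro k hk
  have hP0 : 0 ≤ x ^ k / k.factorial := by positivity
  have hP : x ^ k / k.factorial ≤ G := by
    have hfac : (1 : ℝ) ≤ k.factorial := by exact_mod_cast Nat.factorial_pos k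
    calc x ^ k / k.factorial ≤ x ^ k := div_le_self (by positivity) hfac
      _ ≤ (1 + Λ) ^ k := pow_le_pow_left₀ hx0 (by linarith) k
      _ ≤ (1 + Λ) ^ R := pow_le_pow_right₀ (by linarith) hk
      _ = G := hG.symm
  have h1 := hmo k hk
  have h2 : |N * (x ^ k / k.factorial) - (Ca w a Y).card * (x ^ k / k.factorial)| ≤
      G * (N * (δ * (G + 1) + δ) + √(Y : ℝ)) := by
    rw [← sub_mul, abs_mul, abs_of_nonneg hP0, abs_sub_comm, mul_comm]
    exact mul_le_mul hP hCa (abs_nonneg _) (by linarith)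
  have h3 := abs_sub_le (∑ n ∈ Ca w a Y, ((NB Q y B n).choose k : ℝ)) (N * (x ^ k / k.factorial))
    ((Ca w a Y).card * (x ^ k / k.factorial))
  have hbk : (B.card : ℝ) ^ k ≤ 1 + (B.card : ℝ) ^ R := by
    rcases Nat.eq_zero_or_pos B.card with h | h
    · rw [h]
      rcases k with _ | k
      · simp
      · simp
        positivity
    · have h4 : (1 : ℝ) ≤ B.card := by exact_mod_cast h
      have := pow_le_pow_right₀ h4 hk
      linarith
  have h5 : (B.card : ℝ) ^ k * √(Y : ℝ) ≤ (1 + (B.card : ℝ) ^ R) * √(Y : ℝ) :=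
    mul_le_mul_of_nonneg_right hbk hsq0
  have h6 : η * N ≤ η * (2 * (Ca w a Y).card) := mul_le_mul_of_nonneg_left hCa2 hηpos.le
  have h7 : η * (Ca w a Y).card ≤ η0 * (Ca w a Y).card := mul_le_mul_of_nonneg_right hηη (Nat.cast_nonneg _)
  linarith

end Pool.Agent.Q236.ML
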