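import Pool.Agent.Q236.ML.Vals

set_option autoImplicit false

/-!
# The mixed Poisson law for the values of a function which is periodic modulo all primes
-/

namespace Pool.Agent.Q236.ML

open Finset Filter Pool.Agent.H373R2.T7 Pool.Agent.W123.RP Pool.Agent.W123.RU Pool.Agent.TH464.PO
open Pool.Agent.Q236.CP

/-- the sizes -/
lemma sizes (κ η' cu v Mr x0 cl Vw ε : ℝ) (T0 C : ℕ) (hκ : 0 < κ) (hη' : 0 < η') (hcl : 0 < cl)
    (hcu : 0 < cu) (hv : 0 < v) (hVw : 0 < Vw) (hx0 : 0 ≤ x0) (hε : 0 < ε) :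
    ∃ y0 : ℕ, 2 ≤ y0 ∧ ∀ y : ℕ, y0 ≤ y → 1 ≤ Real.log y ∧ (T0 : ℝ) ≤ κ * Real.log y ∧
      (C : ℝ) ≤ κ * η' * Real.log (κ * Real.log y) ∧ cu / Real.log y ≤ v ∧ x0 * Real.log y / cl ≤ y ∧
      Mr * (cu / (Real.log y * Vw)) ≤ ε := by
  have hL : Tendsto (fun y : ℕ => Real.log (y : ℝ)) atTop atTop :=
    Real.tendsto_log_atTop.comp tendsto_natCast_atTop_atTop
  have hκL : Tendsto (fun y : ℕ => κ * Real.log (y : ℝ)) atTop atTop := hL.const_mul_atTop hκ
  have hLL : Tendsto (fun y : ℕ => Real.log (κ * Real.log (y : ℝ))) atTop atTop :=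
    Real.tendsto_log_atTop.comp hκL
  obtain ⟨y1, hy1, hlog⟩ := log_small 1 (cl / (x0 + 1)) (by positivity)
  have h1 := hL.eventually_ge_atTop 1
  have h2 := hκL.eventually_ge_atTop (T0 : ℝ)
  have h3 := hLL.eventually_ge_atTop ((C : ℝ) / (κ * η'))
  have h4 := hL.eventually_ge_atTop (cu / v)
  have h5 := hL.eventually_ge_atTop (|Mr| * cu / (Vw * ε))
  obtain ⟨y2, hy2⟩ := Filter.eventually_atTop.1 (h1.and (h2.and (h3.and (h4.and h5))))
  refine ⟨max y1 y2, by omega, ?_⟩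
  intro y hy
  obtain ⟨a1, a2, a3, a4, a5⟩ := hy2 y (by omega)
  have hLpos : 0 < Real.log y := by linarith
  refine ⟨a1, a2, ?_, ?_, ?_, ?_⟩
  · rw [div_le_iff₀ (by positivity)] at a3
    linarith
  · rw [div_le_iff₀ hv] at a4
    rw [div_le_iff₀ hLpos]
    linarith
  · have h6 := hlog y (by omega)
    rw [pow_one] at h6
    rw [div_le_iff₀ hcl]
    have h7 : (x0 + 1) * Real.log y ≤ cl * y := by
      have := mul_le_mul_of_nonneg_left h6 (show 0 ≤ x0 + 1 by linarith)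
      calc (x0 + 1) * Real.log y ≤ (x0 + 1) * (cl / (x0 + 1) * y) := this
        _ = cl * y := by field_simp
    nlinarith
  · rw [div_le_iff₀ (by positivity)] at a5
    have h6 : |Mr| * cu / (Real.log y * Vw) ≤ ε := by
      rw [div_le_iff₀ (by positivity)]
      linarith
    calc Mr * (cu / (Real.log y * Vw)) ≤ |Mr| * (cu / (Real.log y * Vw)) :=
          mul_le_mul_of_nonneg_right (le_abs_self _) (by positivity)
      _ = |Mr| * cu / (Real.log y * Vw) := by ring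
      _ ≤ ε := h6

lemma Vz_pos' (y : ℕ) : 0 < Vz y := by
  unfold Vz
  apply prod_pos
  intro p hp
  have : (2 : ℝ) ≤ p := by exact_mod_cast (mem_pz.1 hp).2.two_le
  rw [sub_pos, div_lt_one (by linarith)]
  linarith

open Classical in
/-- the bound of the pair sum -/
lemma Sg_bound (K D w : ℕ) (hw : 1 ≤ w) (η : ℝ) (hη : 0 < η) (hη1 : η ≤ 1)
    (hKD : (K * D : ℕ) / (w : ℝ) ≤ η) : ∃ T0 : ℕ, 2 ≤ T0 ∧ ∀ (C y M : ℕ) (G : ℕ → ℤ), PL G w D → T0 ≤ M →
    (∀ m ∈ Icc 1 M, ∀ m' ∈ Icc 1 M, |G m' - G m| ≤ (y : ℤ) ^ C) →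
    C * Real.log y ≤ η / (K + 1) * M * Real.log M → ∀ s z : ℤ, (∀ m ∈ Icc 1 M, 0 ≤ G m + s) →
    Sg (Qz z) K w y (vals G s M) ≤ 38 * η * (M : ℝ) ^ 2 := by
  obtain ⟨T0, hT0, havg⟩ := avg_E K D w hw η hη hKD
  refine ⟨T0, hT0, ?_⟩
  intro C y M G hG hM hsize hC s z hpos
  refine (Sg_vals G s z K w y M hpos).trans ?_
  have hMr : (2 : ℝ) ≤ M := by exact_mod_cast (by omega : 2 ≤ M)
  have hlogM : 0 < Real.log M := Real.log_pos (by linarith)
  have h1 : ∀ m ∈ Icc 1 M, ∑ t ∈ Et G M m, (Cp G K w y m t - 1) ≤ 38 * η * M := by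
    intro m hm
    have h2 := havg M hM (Co G m) (hG.coll m) y (η / (K + 1)) (by positivity) (by
      rw [← mul_div_assoc, div_le_iff₀ (by positivity)]
      nlinarith) (Et G M m) (by
        unfold Et
        exact filter_subset _ _) (by
        intro h hh
        unfold Et at hh
        rw [mem_filter, mem_Icc] at hh
        rw [mem_Icc] at hm
        have h3 := large_count M y (G (m + h) - G m) (sub_ne_zero.2 hh.2.2) C
          (hsize m (mem_Icc.2 hm) (m + h) (mem_Icc.2 ⟨by omega, hh.2.1⟩))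
          ((pz y).filter (fun p : ℕ => M < p ∧ Co G m p h)) (by
            intro p hp
            rw [mem_filter] at hp
            exact ⟨(mem_pz.1 hp.1).2, hp.2.1, hp.2.2⟩) (by omega)
        have h4 := h3.trans hC
        exact le_of_mul_le_mul_right h4 hlogM)
    have h5 := exp_bound2 η hη.le hη1
    calc ∑ t ∈ Et G M m, (Cp G K w y m t - 1) ≤
        (Real.exp η * (Real.exp η * (Real.exp η + η)) - 1) * M := h2
      _ ≤ 38 * η * M := mul_le_mul_of_nonneg_right h5 (by linarith)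
  refine (sum_le_sum h1).trans (le_of_eq ?_)
  rw [sum_const, Nat.card_Icc, Nat.add_sub_cancel, nsmul_eq_mul]
  ring

open Classical in
/-- **The mixed Poisson law** for functions which are periodic modulo all primes. -/
theorem mixed_PL (D : ℕ) (x0 ε : ℝ) (hx0 : 0 ≤ x0) (hε : 0 < ε) :
    ∃ w0 : ℕ, ∀ w : ℕ, w0 ≤ w → ∃ K : ℕ, ∀ C : ℕ, ∃ y0 : ℕ, ∀ (y Y : ℕ), y0 ≤ y → y ^ K ≤ Y →
      ∀ (G : ℕ → ℤ) (M : ℕ), PL G w D → M * Vz y ≤ x0 →
      (∀ m ∈ Icc 1 M, ∀ m' ∈ Icc 1 M, G m = G m' → m = m') →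
      (∀ m ∈ Icc 1 M, ∀ m' ∈ Icc 1 M, |G m' - G m| ≤ (y : ℤ) ^ C) →
      ∀ (z : ℤ) (A : Finset ℕ), |(((Icc 1 Y).filter (fun n => cnt G y M (z + (n : ℕ)) ∈ A)).card : ℝ) -
        ∑ n ∈ Icc 1 Y, Po (M * Vz y * SS G w (z + (n : ℕ))) A| ≤ ε * Y := by
  obtain ⟨K', R0, w1, η2, hw1, hη2, hmix⟩ := mixed 1 le_rfl x0 (ε / 2) hx0 (by positivity)
  obtain ⟨cl, cu, hcl, hcu, hVz⟩ := Vz_bounds
  obtain ⟨w2, hw2, hlogw⟩ := log_small 1 (cl * η2 / (38 * ((K' * D : ℕ) + 1))) (by positivity)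
  refine ⟨max (max w1 w2) (K' * D + 2), ?_⟩
  intro w hw
  have hwa : w1 ≤ w := by omega
  have hwb : w2 ≤ w := by omega
  have hwc : K' * D + 2 ≤ w := by omega
  obtain ⟨K0, y1, v, hK0, hv, hlaw⟩ := hmix w hwa
  have hVw := Vz_pos' w
  obtain ⟨η, hη⟩ : ∃ η : ℝ, η = min 1 (η2 * Vz w / 38) := ⟨_, rfl⟩
  have hη0 : 0 < η := by rw [hη]; positivity
  have hη1 : η ≤ 1 := by rw [hη]; exact min_le_left _ _
  have hηV : 38 * η ≤ η2 * Vz w := by
    have : η ≤ η2 * Vz w / 38 := by rw [hη]; exact min_le_right _ _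
    linarith
  have hwr : (0 : ℝ) < w := by exact_mod_cast (by omega : 0 < w)
  have hKD : (K' * D : ℕ) / (w : ℝ) ≤ η := by
    rw [hη]
    apply le_min
    · rw [div_le_one hwr]
      exact_mod_cast (by omega : K' * D ≤ w)
    · have hlw : 0 < Real.log w := Real.log_pos (by exact_mod_cast (by omega : 1 < w))
      have h1 := hlogw w hwb
      rw [pow_one] at h1
      have h2 := (hVz w (by omega)).1
      have hK0' : (0 : ℝ) ≤ ((K' * D : ℕ) : ℝ) := Nat.cast_nonneg _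
      have h3 : ((K' * D : ℕ) : ℝ) + 1 ≤ cl * η2 * w / (38 * Real.log w) := by
        rw [le_div_iff₀ (by positivity)]
        have h4 := mul_le_mul_of_nonneg_left h1 (show 0 ≤ 38 * (((K' * D : ℕ) : ℝ) + 1) by positivity)
        have h5 : 38 * (((K' * D : ℕ) : ℝ) + 1) * (cl * η2 / (38 * (((K' * D : ℕ) : ℝ) + 1)) * w) =
            cl * η2 * w := by field_simp
        linarith
      rw [div_le_iff₀ hwr]
      calc ((K' * D : ℕ) : ℝ) ≤ cl * η2 * w / (38 * Real.log w) := by linarith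
        _ = η2 * (cl / Real.log w) / 38 * w := by field_simp
        _ ≤ η2 * Vz w / 38 * w := by gcongr
  obtain ⟨T0, hT0, hSg⟩ := Sg_bound K' D w (by omega) η hη0 hη1 hKD
  obtain ⟨κ, hκ⟩ : ∃ κ : ℝ, κ = ε / (16 * cu) := ⟨_, rfl⟩
  have hκ0 : 0 < κ := by rw [hκ]; positivity
  refine ⟨K0 + R0, ?_⟩
  intro C
  obtain ⟨y2, hy2, hsz⟩ := sizes κ (η / (K' + 1)) cu v (Mw w) x0 cl (Vz w) (ε / 2) T0 C hκ0 (by positivity)
    hcl hcu hv hVw hx0 (by positivity)
  refine ⟨max (max y1 y2) (w + 1), ?_⟩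
  intro y Y hy hyY G M hG hMx hinj hsize z A
  have hyw : w ≤ y := by omega
  obtain ⟨b1, b2, b3, b4, b5, b6⟩ := hsz y (by omega)
  have hlog : 0 < Real.log y := by linarith
  obtain ⟨hV1, hV2⟩ := hVz y (by omega)
  have hVy := Vz_pos' y
  have hM0 : (0 : ℝ) ≤ M := Nat.cast_nonneg M
  have hMy : M ≤ y := by
    have h1 : (M : ℝ) ≤ y := by
      refine le_trans ?_ b5
      rw [le_div_iff₀ hcl]
      have h2 : (M : ℝ) * (cl / Real.log y) ≤ x0 := (mul_le_mul_of_nonneg_left hV1 hM0).trans hMx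
      rw [← mul_div_assoc, div_le_iff₀ hlog] at h2
      exact h2
    exact_mod_cast h1
  have hyK0 : y ^ K0 ≤ Y := (Nat.pow_le_pow_right (by omega) (by omega)).trans hyY
  have hMR : M ^ R0 ≤ Y :=
    (Nat.pow_le_pow_left hMy R0).trans ((Nat.pow_le_pow_right (by omega) (by omega)).trans hyY)
  obtain ⟨Q, hQd⟩ : ∃ Q, Q = Qz (z - shf G M) := ⟨_, rfl⟩
  obtain ⟨B, hBd⟩ : ∃ B, B = vals G (shf G M) M := ⟨_, rfl⟩
  have hQ : PerB Q 1 := by rw [hQd]; exact perB_Qz _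
  have hVqy : Vq Q y = Vz y := by rw [hQd]; exact Vq_Qz _ y
  have hVqw : Vq Q w = Vz w := by rw [hQd]; exact Vq_Qz _ w
  have hBc : B.card = M := by rw [hBd]; exact vals_card G M hinj
  have hmain := hlaw Q y Y B hQ (by
      intro p hp
      rw [hQd, nuB_Qz _ p hp.pos]
      exact hp.one_lt) hyw (by omega) hyK0 (by rw [hBc]; exact hMR) (by
      rw [hVqy]
      exact hV2.trans b4) (by rw [hBc, hVqy]; exact hMx) (by
      intro hlow
      rw [hBc, hVqy] at hlow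
      rw [hBc, hVqw]
      have hMκ : κ * Real.log y ≤ M := by
        have h1 : ε / 2 / 8 ≤ M * (cu / Real.log y) := hlow.trans (mul_le_mul_of_nonneg_left hV2 hM0)
        rw [← mul_div_assoc, le_div_iff₀ hlog] at h1
        rw [hκ, div_mul_eq_mul_div, div_le_iff₀ (by positivity)]
        linarith
      have hT0M : T0 ≤ M := by exact_mod_cast b2.trans hMκ
      have hT0r : (2 : ℝ) ≤ T0 := by exact_mod_cast hT0
      have hlogM : Real.log (κ * Real.log y) ≤ Real.log M := Real.log_le_log (by positivity) hMκ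
      have hb : 0 ≤ Real.log (κ * Real.log y) := Real.log_nonneg (by linarith)
      have h2 : C * Real.log y ≤ η / (K' + 1) * M * Real.log M := by
        have hη' : 0 < η / (K' + 1) := by positivity
        calc (C : ℝ) * Real.log y ≤ κ * (η / (K' + 1)) * Real.log (κ * Real.log y) * Real.log y :=
              mul_le_mul_of_nonneg_right b3 hlog.le
          _ = η / (K' + 1) * (κ * Real.log y) * Real.log (κ * Real.log y) := by ring
          _ ≤ η / (K' + 1) * M * Real.log (κ * Real.log y) := by gcongr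
          _ ≤ η / (K' + 1) * M * Real.log M := by gcongr
      have h3 := hSg C y M G hG hT0M hsize h2 (shf G M) (z - shf G M) (fun m hm => shf_nonneg G M m hm)
      rw [hQd, hBd]
      refine h3.trans ?_
      have h4 : 0 ≤ (M : ℝ) ^ 2 := by positivity
      nlinarith) A
  have hVt : Vt Q w y * Vz w = Vz y := by
    have h1 := Vq_split Q w y hyw
    rw [hVqy, hVqw] at h1
    rw [h1]
    ring
  have hVt2 : Mw w * Vt Q w y ≤ ε / 2 := by
    have h1 : Vt Q w y ≤ cu / (Real.log y * Vz w) := by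
      rw [le_div_iff₀ (by positivity)]
      calc Vt Q w y * (Real.log y * Vz w) = Vz y * Real.log y := by rw [← hVt]; ring
        _ ≤ cu := by rwa [le_div_iff₀ hlog] at hV2
    exact (mul_le_mul_of_nonneg_left h1 (Nat.cast_nonneg _)).trans b6
  have hNB : ∀ n, NB Q y B n = cnt G y M (z + n) := by
    intro n
    rw [hQd, hBd]
    exact NB_vals G M y n z hinj
  have hlam : ∀ n, |Po (lam Q w y B n) A - Po (M * Vz y * SS G w (z + (n : ℕ))) A| ≤ ε / 2 := by
    intro n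
    have h1 := lam_vals G w D M y n z hG hyw hinj
    rw [← hQd, ← hBd] at h1
    have h2 := Po_diff (lam Q w y B n) (M * Vz y * SS G w (z + (n : ℕ))) (lam_nonneg Q w y B n)
      (mul_nonneg (mul_nonneg hM0 hVy.le) (SS_nonneg G w _)) A
    exact h2.trans (h1.trans hVt2)
  have hsum : |∑ n ∈ Icc 1 Y, Po (lam Q w y B n) A - ∑ n ∈ Icc 1 Y, Po (M * Vz y * SS G w (z + (n : ℕ))) A| ≤
      ε / 2 * Y := by
    rw [← sum_sub_distrib]
    refine (abs_sum_le_sum_abs _ _).trans ?_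
    refine (sum_le_sum fun n _ => hlam n).trans (le_of_eq ?_)
    rw [sum_const, Nat.card_Icc, Nat.add_sub_cancel, nsmul_eq_mul]
    ring
  have e1 : (Icc 1 Y).filter (fun n => cnt G y M (z + (n : ℕ)) ∈ A) = (Icc 1 Y).filter (fun n => NB Q y B n ∈ A) := by
    apply filter_congr
    intro n _
    rw [hNB n]
  rw [e1]
  have h3 := abs_sub_le ((((Icc 1 Y).filter (fun n => NB Q y B n ∈ A)).card : ℝ))
    (∑ n ∈ Icc 1 Y, Po (lam Q w y B n) A) (∑ n ∈ Icc 1 Y, Po (M * Vz y * SS G w (z + (n : ℕ))) A)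
  linarith

end Pool.Agent.Q236.ML
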