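import Pool.Agent.Q236.ML.Law

set_option autoImplicit false

/-!
# The mixed Poisson law for the sifted elements of `n + B`, `B` arbitrary
-/

namespace Pool.Agent.Q236.ML

open Finset Filter Pool.Agent.H373R2.T7 Pool.Agent.W123.RP Pool.Agent.W123.RU Pool.Agent.TH464.PO
open Pool.Agent.Q236.CP

lemma Po_nonneg (x : ℝ) (hx : 0 ≤ x) (A : Finset ℕ) : 0 ≤ Po x A := by
  unfold Po
  exact sum_nonneg fun j _ => by positivity

lemma pois_sum (x : ℝ) : HasSum (fun j : ℕ => Real.exp (-x) * x ^ j / j.factorial) 1 := by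
  have h := NormedSpace.expSeries_div_hasSum_exp (𝔸 := ℝ) x
  have h2 := h.mul_left (Real.exp (-x))
  rw [← Real.exp_eq_exp_ℝ, ← Real.exp_add, neg_add_cancel, Real.exp_zero] at h2
  have e : (fun j : ℕ => Real.exp (-x) * x ^ j / j.factorial) = fun j : ℕ => Real.exp (-x) * (x ^ j / j.factorial) := by
    funext j
    ring
  rw [e]
  exact h2

lemma Po_le_one (x : ℝ) (hx : 0 ≤ x) (A : Finset ℕ) : Po x A ≤ 1 := by
  unfold Po
  exact sum_le_hasSum A (fun j _ => by positivity) (pois_sum x)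

/-- continuity of the Poisson law -/
lemma Po_mono_diff (x h : ℝ) (hx : 0 ≤ x) (hh : 0 ≤ h) (A : Finset ℕ) :
    |Po (x + h) A - Po x A| ≤ h := by
  have key : ∀ j : ℕ, Real.exp (-h) * (Real.exp (-x) * x ^ j / j.factorial) ≤
      Real.exp (-(x + h)) * (x + h) ^ j / j.factorial := by
    intro j
    have e : Real.exp (-(x + h)) = Real.exp (-h) * Real.exp (-x) := by
      rw [← Real.exp_add]
      congr 1
      ring
    rw [e]
    have h1 : x ^ j ≤ (x + h) ^ j := pow_le_pow_left₀ hx (by linarith) j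
    calc Real.exp (-h) * (Real.exp (-x) * x ^ j / j.factorial) =
        Real.exp (-h) * Real.exp (-x) * x ^ j / j.factorial := by ring
      _ ≤ _ := by
        apply div_le_div_of_nonneg_right _ (by positivity)
        exact mul_le_mul_of_nonneg_left h1 (by positivity)
  have hE : 1 - h ≤ Real.exp (-h) := by
    have := Real.add_one_le_exp (-h)
    linarith
  have hE1 : Real.exp (-h) ≤ 1 := Real.exp_le_one_iff.2 (by linarith)
  have hP0 := Po_nonneg x hx A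
  have hP1 := Po_le_one x hx A
  have hlow : Real.exp (-h) * Po x A ≤ Po (x + h) A := by
    unfold Po
    rw [mul_sum]
    exact sum_le_sum fun j _ => key j
  have hup : Po (x + h) A - Real.exp (-h) * Po x A ≤ 1 - Real.exp (-h) := by
    unfold Po
    rw [mul_sum, ← sum_sub_distrib]
    have hs := (pois_sum (x + h)).sub ((pois_sum x).mul_left (Real.exp (-h)))
    rw [mul_one] at hs
    exact sum_le_hasSum A (fun j _ => sub_nonneg.2 (key j)) hs
  rw [abs_le]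
  constructor
  · nlinarith
  · nlinarith

lemma Po_diff (x y : ℝ) (hx : 0 ≤ x) (hy : 0 ≤ y) (A : Finset ℕ) : |Po x A - Po y A| ≤ |x - y| := by
  rcases le_total x y with h | h
  · have := Po_mono_diff x (y - x) hx (by linarith) A
    rw [show x + (y - x) = y by ring] at this
    rw [abs_sub_comm, abs_of_nonpos (by linarith : x - y ≤ 0)]
    linarith
  · have := Po_mono_diff y (x - y) hy (by linarith) A
    rw [show y + (x - y) = x by ring] at this
    rw [abs_of_nonneg (by linarith : 0 ≤ x - y)]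
    exact this

lemma class_iff (w n a : ℕ) (ha : a < Mw w) : (∀ p ∈ pz w, n % p = a % p) ↔ n % Mw w = a := by
  constructor
  · intro h
    have h1 : Mw w ∣ ((n : ℤ) - a).natAbs := by
      unfold Mw
      apply Finset.prod_primes_dvd
      · intro p hp
        exact (mem_pz.1 hp).2.prime
      · intro p hp
        have h2 : a ≡ n [MOD p] := (h p hp).symm
        have h3 := (Nat.modEq_iff_dvd.1 h2)
        exact Int.natCast_dvd.1 h3
    have h2 : ((Mw w : ℕ) : ℤ) ∣ (n : ℤ) - a := Int.natCast_dvd.2 h1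
    have h3 : a ≡ n [MOD Mw w] := Nat.modEq_iff_dvd.2 h2
    have h4 : a % Mw w = n % Mw w := h3
    rw [← h4, Nat.mod_eq_of_lt ha]
  · intro h p hp
    have hd : p ∣ Mw w := Finset.dvd_prod_of_mem _ hp
    rw [← h, Nat.mod_mod_of_dvd n hd]

open Classical in
lemma Ca_eq (w a Y : ℕ) (ha : a < Mw w) : Ca w a Y = (Icc 1 Y).filter (fun n => n % Mw w = a) := by
  unfold Ca
  apply filter_congr
  intro n _
  exact class_iff w n a ha

lemma Ca_card (w a Y : ℕ) (ha : a < Mw w) : ((Ca w a Y).card : ℝ) ≤ Y / Mw w + 1 := by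
  classical
  have hM := Mw_pos w
  have h1 : (Ca w a Y).card ≤ Y / Mw w + 1 := by
    rw [Ca_eq w a Y ha]
    have h2 : ((Icc 1 Y).filter (fun n => n % Mw w = a)).card ≤ (range (Y / Mw w + 1)).card := by
      apply card_le_card_of_injOn (fun n => n / Mw w)
      · intro n hn
        rw [mem_coe, mem_filter, mem_Icc] at hn
        rw [mem_coe, mem_range]
        exact Nat.lt_succ_of_le (Nat.div_le_div_right hn.1.2)
      · intro n hn m hm hnm
        rw [mem_coe, mem_filter] at hn hm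
        simp only at hnm
        rw [← Nat.div_add_mod n (Mw w), ← Nat.div_add_mod m (Mw w), hnm, hn.2, hm.2]
    rwa [card_range] at h2
  calc ((Ca w a Y).card : ℝ) ≤ ((Y / Mw w + 1 : ℕ) : ℝ) := by exact_mod_cast h1
    _ ≤ Y / Mw w + 1 := by
      push_cast
      have := @Nat.cast_div_le ℝ _ _ _ Y (Mw w)
      linarith

open Classical in
/-- sums over the classes -/
lemma sum_classes (w Y : ℕ) (f : ℕ → ℝ) : ∑ n ∈ Icc 1 Y, f n = ∑ a ∈ range (Mw w), ∑ n ∈ Ca w a Y, f n := by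
  rw [← Finset.sum_fiberwise_of_maps_to (s := Icc 1 Y) (t := range (Mw w)) (g := fun n => n % Mw w)
    (fun n _ => mem_range.2 (Nat.mod_lt _ (Mw_pos w)))]
  apply sum_congr rfl
  intro a ha
  rw [Ca_eq w a Y (mem_range.1 ha)]

/-- the parameter of the mixed Poisson law -/
noncomputable def lam (Q : ℕ → ℕ → Prop) (w y : ℕ) (B : Finset ℕ) (n : ℕ) : ℝ :=
  (Ba Q w n B).card * Vt Q w y

lemma lam_nonneg (Q : ℕ → ℕ → Prop) (w y : ℕ) (B : Finset ℕ) (n : ℕ) : 0 ≤ lam Q w y B n :=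
  mul_nonneg (Nat.cast_nonneg _) (Vt_nonneg Q w y)

lemma Ba_class (Q : ℕ → ℕ → Prop) (c : ℕ) (hQ : PerB Q c) (w n a Y : ℕ) (B : Finset ℕ) (hn : n ∈ Ca w a Y) :
    Ba Q w n B = Ba Q w a B := by
  classical
  unfold Ca at hn
  rw [mem_filter] at hn
  unfold Ba
  apply filter_congr
  intro b _
  exact sf_class Q c hQ w n a b hn.2

open Classical in
/-- the average of the parameter -/
lemma sum_Ba (Q : ℕ → ℕ → Prop) (c : ℕ) (hQ : PerB Q c) (w : ℕ) (B : Finset ℕ) :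
    ∑ a ∈ range (Mw w), ((Ba Q w a B).card : ℝ) = Mw w * (B.card * Vq Q w) := by
  have h1 : ∀ a, ((Ba Q w a B).card : ℝ) = ∑ b ∈ B, if Sf Q w (a + b) then (1 : ℝ) else 0 := by
    intro a
    unfold Ba
    rw [Finset.sum_ite, Finset.sum_const_zero, add_zero, Finset.sum_const, nsmul_eq_mul, mul_one]
  rw [Finset.sum_congr rfl fun a _ => h1 a, Finset.sum_comm]
  have h2 : ∀ b ∈ B, ∑ a ∈ range (Mw w), (if Sf Q w (a + b) then (1 : ℝ) else 0) = Mw w * Vq Q w := by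
    intro b _
    rw [Finset.sum_ite, Finset.sum_const_zero, add_zero, Finset.sum_const, nsmul_eq_mul, mul_one]
    have h3 := exact (Qt Q b) c (perB_Qt Q c hQ b) w
    rw [Vq_Qt Q c hQ b w] at h3
    rw [← h3]
    rfl
  rw [Finset.sum_congr rfl h2, Finset.sum_const, nsmul_eq_mul]
  ring

open Classical in
/-- the average of the pair sums -/
lemma sum_Sg (Q : ℕ → ℕ → Prop) (c : ℕ) (hQ : PerB Q c) (K w y : ℕ) (B : Finset ℕ) :
    ∑ a ∈ range (Mw w), Sg Q K w y (Ba Q w a B) ≤ Mw w * (Vq Q w * Sg Q K w y B) := by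
  have h1 : ∀ a, Sg Q K w y (Ba Q w a B) ≤ ∑ x ∈ prs B,
      (if Sf Q w (a + x.1) then (1 : ℝ) else 0) * (Fp Q K w y (x.2 - x.1) - 1) := by
    intro a
    unfold Sg
    have h2 : ∀ x ∈ prs (Ba Q w a B), Fp Q K w y (x.2 - x.1) - 1 ≤
        (if Sf Q w (a + x.1) then (1 : ℝ) else 0) * (Fp Q K w y (x.2 - x.1) - 1) := by
      intro x hx
      unfold prs at hx
      rw [mem_filter, mem_product] at hx
      have h3 := hx.1.1
      unfold Ba at h3
      rw [mem_filter] at h3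
      rw [if_pos h3.2, one_mul]
    refine (sum_le_sum h2).trans ?_
    apply sum_le_sum_of_subset_of_nonneg
    · intro x hx
      unfold prs at hx ⊢
      rw [mem_filter, mem_product] at hx ⊢
      exact ⟨⟨Ba_sub Q w a B hx.1.1, Ba_sub Q w a B hx.1.2⟩, hx.2⟩
    · intro x _ _
      have := Fp_ge Q K w y (x.2 - x.1)
      apply mul_nonneg _ (by linarith)
      split_ifs <;> norm_num
  refine (sum_le_sum fun a _ => h1 a).trans ?_
  rw [Finset.sum_comm]
  unfold Sg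
  rw [mul_sum, mul_sum]
  apply sum_le_sum
  intro x _
  rw [← sum_mul]
  have h2 : ∑ a ∈ range (Mw w), (if Sf Q w (a + x.1) then (1 : ℝ) else 0) = Mw w * Vq Q w := by
    rw [Finset.sum_ite, Finset.sum_const_zero, add_zero, Finset.sum_const, nsmul_eq_mul, mul_one]
    have h3 := exact (Qt Q x.1) c (perB_Qt Q c hQ x.1) w
    rw [Vq_Qt Q c hQ x.1 w] at h3
    rw [← h3]
    rfl
  rw [h2, mul_assoc]

open Classical in
/-- Markov's inequality over the classes -/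
lemma bad_card (s : Finset ℕ) (f : ℕ → ℝ) (hf : ∀ a ∈ s, 0 ≤ f a) (t Bd : ℝ) (ht : 0 < t)
    (h : ∑ a ∈ s, f a ≤ Bd * t) : ((s.filter (fun a => ¬ f a ≤ t)).card : ℝ) ≤ Bd := by
  have h1 : ((s.filter (fun a => ¬ f a ≤ t)).card : ℝ) * t ≤ ∑ a ∈ s, f a := by
    calc ((s.filter (fun a => ¬ f a ≤ t)).card : ℝ) * t = ∑ _a ∈ s.filter (fun a => ¬ f a ≤ t), t := by
          rw [sum_const, nsmul_eq_mul]
      _ ≤ ∑ a ∈ s.filter (fun a => ¬ f a ≤ t), f a := by
          apply sum_le_sum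
          intro a ha
          rw [mem_filter] at ha
          exact (not_le.1 ha.2).le
      _ ≤ _ := by
          apply sum_le_sum_of_subset_of_nonneg (filter_subset _ _)
          intro a ha _
          exact hf a ha
  exact le_of_mul_le_mul_right (h1.trans h) ht

open Classical in
/-- **The mixed Poisson law**, main case. -/
theorem mixed_main (c : ℕ) (x0 ε : ℝ) (hx0 : 0 ≤ x0) (hε : 0 < ε) :
    ∃ (K R0 w0 : ℕ) (η2 : ℝ), 1 ≤ w0 ∧ 0 < η2 ∧ ∀ w : ℕ, w0 ≤ w → ∃ (K0 y0 : ℕ) (v : ℝ), 1 ≤ K0 ∧ 0 < v ∧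
      ∀ (Q : ℕ → ℕ → Prop) (y Y : ℕ) (B : Finset ℕ), PerB Q c → (∀ p : ℕ, p.Prime → nuB Q p < p) →
      w ≤ y → y0 ≤ y → y ^ K0 ≤ Y → B.card ^ R0 ≤ Y → Vq Q y ≤ v → B.card * Vq Q y ≤ x0 →
      Sg Q K w y B ≤ η2 * (Vq Q w * B.card ^ 2) →
      ∀ A : Finset ℕ, |(((Icc 1 Y).filter (fun n => NB Q y B n ∈ A)).card : ℝ) -
        ∑ n ∈ Icc 1 Y, Po (lam Q w y B n) A| ≤ ε * Y := by
  obtain ⟨Λ, hΛ⟩ : ∃ Λ : ℝ, Λ = 8 * (x0 + 1) / ε := ⟨_, rfl⟩
  have hΛ0 : 0 < Λ := by rw [hΛ]; positivity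
  have hΛε : ε / 8 * Λ = x0 + 1 := by rw [hΛ]; field_simp
  obtain ⟨R, w1, η3, hw1, hη3, hcls⟩ := cls_law c Λ (ε / 4) hΛ0.le (by positivity)
  obtain ⟨c1, B0, w2, hc1, hw2, hlow⟩ := W_low c
  obtain ⟨η2, hη2⟩ : ∃ η2 : ℝ, η2 = η3 * ε / (8 * (x0 + 1) ^ 2) := ⟨_, rfl⟩
  have hη20 : 0 < η2 := by rw [hη2]; positivity
  have hη2e : η2 * (x0 + 1) ^ 2 = ε / 8 * η3 := by rw [hη2]; field_simp
  refine ⟨(1 + 2 * (R * c)) ^ (R ^ 2) - 1, 4 * R, max w1 w2, η2, by omega, hη20, ?_⟩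
  intro w hw
  obtain ⟨K0, y0, hK0, hlaw⟩ := hcls w (by omega)
  have hwl : 0 < Real.log w := Real.log_pos (by exact_mod_cast (by omega : 1 < w))
  obtain ⟨u, hu⟩ : ∃ u : ℝ, u = c1 / Real.log w ^ B0 := ⟨_, rfl⟩
  have hu0 : 0 < u := by rw [hu]; positivity
  refine ⟨K0, max y0 (Mw w), η3 * u, hK0, by positivity, ?_⟩
  intro Q y Y B hQ hadm hwy hy hyY hBY hv hx hS A
  have hVw : u ≤ Vq Q w := by rw [hu]; exact hlow w (by omega) Q hQ hadm
  have hVw0 : 0 < Vq Q w := lt_of_lt_of_le hu0 hVw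
  have hVt0 := Vt_nonneg Q w y
  have hspl := Vq_split Q w y hwy
  have hVt : Vt Q w y ≤ η3 := by
    by_contra hcon
    push Not at hcon
    have : u * η3 < Vq Q w * Vt Q w y := by
      calc u * η3 < u * Vt Q w y := mul_lt_mul_of_pos_left hcon hu0
        _ ≤ Vq Q w * Vt Q w y := mul_le_mul_of_nonneg_right hVw hVt0
    rw [← hspl] at this
    linarith
  obtain ⟨M, hM⟩ : ∃ M : ℝ, M = Mw w := ⟨_, rfl⟩
  have hM0 : 0 < M := by rw [hM]; exact_mod_cast Mw_pos w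
  have hyY1 : y ≤ Y := by
    have h1 : y ^ 1 ≤ y ^ K0 := Nat.pow_le_pow_right (by
      have : 1 ≤ Mw w := Mw_pos w
      omega) hK0
    rw [pow_one] at h1
    omega
  have hMY : M ≤ Y := by
    rw [hM]
    exact_mod_cast (by omega : Mw w ≤ Y)
  have hY0 : (0 : ℝ) ≤ Y := Nat.cast_nonneg Y
  have hB0 : (0 : ℝ) ≤ B.card := Nat.cast_nonneg _
  have hx' : 0 ≤ B.card * Vq Q y := mul_nonneg hB0 (Vq_nonneg Q y)
  -- the bad classes
  obtain ⟨K, hK⟩ : ∃ K, K = (1 + 2 * (R * c)) ^ (R ^ 2) - 1 := ⟨_, rfl⟩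
  rw [← hK] at hS
  rw [← hK] at hlaw
  obtain ⟨b1, hb1⟩ : ∃ b1, b1 = (range (Mw w)).filter (fun a => ¬ lam Q w y B a ≤ Λ) := ⟨_, rfl⟩
  obtain ⟨b2, hb2⟩ : ∃ b2, b2 = (range (Mw w)).filter
    (fun a => ¬ Vt Q w y ^ 2 * Sg Q K w y (Ba Q w a B) ≤ η3) := ⟨_, rfl⟩
  have hc1 : (b1.card : ℝ) ≤ ε / 8 * M := by
    rw [hb1]
    apply bad_card _ _ (fun a _ => lam_nonneg Q w y B a) Λ _ hΛ0
    unfold lam
    rw [← sum_mul, sum_Ba Q c hQ w B, ← hM]
    calc M * (B.card * Vq Q w) * Vt Q w y = M * (B.card * Vq Q y) := by rw [hspl]; ring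
      _ ≤ M * (x0 + 1) := mul_le_mul_of_nonneg_left (by linarith) hM0.le
      _ = ε / 8 * M * Λ := by rw [← hΛε]; ring
  have hc2 : (b2.card : ℝ) ≤ ε / 8 * M := by
    rw [hb2]
    apply bad_card _ _ (fun a _ => mul_nonneg (by positivity) (Sg_nonneg Q K w y _)) η3 _ hη3
    rw [← mul_sum]
    have h1 := sum_Sg Q c hQ K w y B
    rw [← hM] at h1
    calc Vt Q w y ^ 2 * ∑ a ∈ range (Mw w), Sg Q K w y (Ba Q w a B) ≤
        Vt Q w y ^ 2 * (M * (Vq Q w * (η2 * (Vq Q w * B.card ^ 2)))) := by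
          apply mul_le_mul_of_nonneg_left _ (by positivity)
          refine h1.trans ?_
          apply mul_le_mul_of_nonneg_left _ hM0.le
          exact mul_le_mul_of_nonneg_left hS hVw0.le
      _ = M * (η2 * (B.card * Vq Q y) ^ 2) := by rw [hspl]; ring
      _ ≤ M * (η2 * (x0 + 1) ^ 2) := by
          apply mul_le_mul_of_nonneg_left _ hM0.le
          apply mul_le_mul_of_nonneg_left _ hη20.le
          exact pow_le_pow_left₀ hx' (by linarith) 2
      _ = ε / 8 * M * η3 := by rw [hη2e]; ring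
  -- the sum over the classes
  have e1 : (((Icc 1 Y).filter (fun n => NB Q y B n ∈ A)).card : ℝ) =
      ∑ a ∈ range (Mw w), (((Ca w a Y).filter (fun n => NB Q y B n ∈ A)).card : ℝ) := by
    have h1 : ∀ s : Finset ℕ, ((s.filter (fun n => NB Q y B n ∈ A)).card : ℝ) =
        ∑ n ∈ s, if NB Q y B n ∈ A then (1 : ℝ) else 0 := by
      intro s
      rw [Finset.sum_ite, Finset.sum_const_zero, add_zero, Finset.sum_const, nsmul_eq_mul, mul_one]
    rw [h1, sum_classes w Y]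
    exact sum_congr rfl fun a _ => (h1 _).symm
  have e2 : ∑ n ∈ Icc 1 Y, Po (lam Q w y B n) A =
      ∑ a ∈ range (Mw w), (Ca w a Y).card * Po (lam Q w y B a) A := by
    rw [sum_classes w Y]
    apply sum_congr rfl
    intro a _
    have h1 : ∀ n ∈ Ca w a Y, Po (lam Q w y B n) A = Po (lam Q w y B a) A := by
      intro n hn
      unfold lam
      rw [Ba_class Q c hQ w n a Y B hn]
    rw [sum_congr rfl h1, sum_const, nsmul_eq_mul]
  rw [e1, e2, ← sum_sub_distrib]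
  refine (abs_sum_le_sum_abs _ _).trans ?_
  have h1 : ∀ a ∈ range (Mw w), |(((Ca w a Y).filter (fun n => NB Q y B n ∈ A)).card : ℝ) -
      (Ca w a Y).card * Po (lam Q w y B a) A| ≤ ε / 4 * (Ca w a Y).card +
        ((if a ∈ b1 then (2 * Y / M : ℝ) else 0) + (if a ∈ b2 then (2 * Y / M : ℝ) else 0)) := by
    intro a ha
    have hCc : ((Ca w a Y).card : ℝ) ≤ 2 * Y / M := by
      refine (Ca_card w a Y (mem_range.1 ha)).trans ?_
      rw [← hM, le_div_iff₀ hM0]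
      have : (Y : ℝ) / M * M = Y := div_mul_cancel₀ _ hM0.ne'
      nlinarith
    have hYM : 0 ≤ 2 * (Y : ℝ) / M := by positivity
    by_cases hgood : lam Q w y B a ≤ Λ ∧ Vt Q w y ^ 2 * Sg Q K w y (Ba Q w a B) ≤ η3
    · have h2 := hlaw Q y Y a B hQ hwy ((le_max_left _ _).trans hy) hyY hBY hVt hgood.1 hgood.2 A
      refine h2.trans ?_
      have h3 : (0 : ℝ) ≤ (if a ∈ b1 then (2 * Y / M : ℝ) else 0) := by split_ifs <;> linarith
      have h4 : (0 : ℝ) ≤ (if a ∈ b2 then (2 * Y / M : ℝ) else 0) := by split_ifs <;> linarith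
      linarith
    · have h2 : |(((Ca w a Y).filter (fun n => NB Q y B n ∈ A)).card : ℝ) -
          (Ca w a Y).card * Po (lam Q w y B a) A| ≤ (Ca w a Y).card := by
        have h5 : (((Ca w a Y).filter (fun n => NB Q y B n ∈ A)).card : ℝ) ≤ (Ca w a Y).card := by
          exact_mod_cast card_filter_le _ _
        have h6 : (0 : ℝ) ≤ ((Ca w a Y).filter (fun n => NB Q y B n ∈ A)).card := Nat.cast_nonneg _
        have h7 := Po_nonneg _ (lam_nonneg Q w y B a) A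
        have h8 := Po_le_one _ (lam_nonneg Q w y B a) A
        have h9 : (0 : ℝ) ≤ (Ca w a Y).card := Nat.cast_nonneg _
        rw [abs_le]
        constructor
        · nlinarith
        · nlinarith
      have h3 : 2 * (Y : ℝ) / M ≤ (if a ∈ b1 then (2 * Y / M : ℝ) else 0) +
          (if a ∈ b2 then (2 * Y / M : ℝ) else 0) := by
        rw [not_and_or] at hgood
        rcases hgood with hg | hg
        · rw [if_pos (by rw [hb1, mem_filter]; exact ⟨ha, hg⟩)]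
          have h4 : (0 : ℝ) ≤ (if a ∈ b2 then (2 * Y / M : ℝ) else 0) := by split_ifs <;> linarith
          linarith
        · have h4 : (0 : ℝ) ≤ (if a ∈ b1 then (2 * Y / M : ℝ) else 0) := by split_ifs <;> linarith
          rw [if_pos (by rw [hb2, mem_filter]; exact ⟨ha, hg⟩ : a ∈ b2)]
          linarith
      have h9 : 0 ≤ ε / 4 * ((Ca w a Y).card : ℝ) := by positivity
      linarith
  refine (sum_le_sum h1).trans ?_
  rw [sum_add_distrib, sum_add_distrib, ← mul_sum]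
  have e3 : ∑ a ∈ range (Mw w), ((Ca w a Y).card : ℝ) = Y := by
    have := sum_classes w Y (fun _ => (1 : ℝ))
    simp only [sum_const, nsmul_eq_mul, mul_one, Nat.card_Icc, Nat.add_sub_cancel] at this
    exact this.symm
  have e4 : ∀ b : Finset ℕ, b ⊆ range (Mw w) → ∑ a ∈ range (Mw w), (if a ∈ b then (2 * Y / M : ℝ) else 0) =
      b.card * (2 * Y / M) := by
    intro b hb
    rw [← sum_filter, sum_const, nsmul_eq_mul]
    congr 2
    congr 1
    ext a
    rw [mem_filter]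
    exact ⟨fun h => h.2, fun h => ⟨hb h, h⟩⟩
  rw [e3, e4 b1 (by rw [hb1]; exact filter_subset _ _), e4 b2 (by rw [hb2]; exact filter_subset _ _)]
  have h2 : (b1.card : ℝ) * (2 * Y / M) ≤ ε / 8 * M * (2 * Y / M) := mul_le_mul_of_nonneg_right hc1 (by positivity)
  have h3 : (b2.card : ℝ) * (2 * Y / M) ≤ ε / 8 * M * (2 * Y / M) := mul_le_mul_of_nonneg_right hc2 (by positivity)
  have h4 : ε / 8 * M * (2 * Y / M) = ε / 4 * Y := by field_simp; ring
  have h5 : 0 ≤ ε * Y := by positivity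
  linarith

open Classical in
/-- the sum of the parameter -/
lemma sum_lam (Q : ℕ → ℕ → Prop) (c : ℕ) (hQ : PerB Q c) (w y Y : ℕ) (B : Finset ℕ) (hwy : w ≤ y)
    (hMY : Mw w ≤ Y) : ∑ n ∈ Icc 1 Y, lam Q w y B n ≤ 2 * Y * (B.card * Vq Q y) := by
  have hM0 : (0 : ℝ) < Mw w := by exact_mod_cast Mw_pos w
  have hMYr : (Mw w : ℝ) ≤ Y := by exact_mod_cast hMY
  have e2 : ∑ n ∈ Icc 1 Y, lam Q w y B n = ∑ a ∈ range (Mw w), (Ca w a Y).card * lam Q w y B a := by
    rw [sum_classes w Y]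
    apply sum_congr rfl
    intro a _
    have h1 : ∀ n ∈ Ca w a Y, lam Q w y B n = lam Q w y B a := by
      intro n hn
      unfold lam
      rw [Ba_class Q c hQ w n a Y B hn]
    rw [sum_congr rfl h1, sum_const, nsmul_eq_mul]
  rw [e2]
  have h1 : ∀ a ∈ range (Mw w), (Ca w a Y).card * lam Q w y B a ≤ 2 * Y / Mw w * lam Q w y B a := by
    intro a ha
    apply mul_le_mul_of_nonneg_right _ (lam_nonneg Q w y B a)
    refine (Ca_card w a Y (mem_range.1 ha)).trans ?_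
    rw [le_div_iff₀ hM0]
    have : (Y : ℝ) / Mw w * Mw w = Y := div_mul_cancel₀ _ hM0.ne'
    nlinarith
  refine (sum_le_sum h1).trans (le_of_eq ?_)
  rw [← mul_sum]
  unfold lam
  rw [← sum_mul, sum_Ba Q c hQ w B, Vq_split Q w y hwy]
  field_simp

lemma Po_zero (A : Finset ℕ) : Po 0 A = if 0 ∈ A then 1 else 0 := by
  unfold Po
  have h1 : ∀ j ∈ A, Real.exp (-(0 : ℝ)) * (0 : ℝ) ^ j / j.factorial = if j = 0 then 1 else 0 := by
    intro j _
    rcases j with _ | j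
    · simp
    · simp
  rw [sum_congr rfl h1, sum_ite_eq']

open Classical in
/-- the case of small sets -/
theorem mixed_small (c : ℕ) (hc : 1 ≤ c) (ε : ℝ) (hε : 0 < ε) (w : ℕ) : ∃ K0 y0 : ℕ, 1 ≤ K0 ∧
      ∀ (Q : ℕ → ℕ → Prop) (y Y : ℕ) (B : Finset ℕ), PerB Q c → w ≤ y → y0 ≤ y → y ^ K0 ≤ Y →
      B.card ^ 4 ≤ Y → B.card * Vq Q y ≤ ε / 8 →
      ∀ A : Finset ℕ, |(((Icc 1 Y).filter (fun n => NB Q y B n ∈ A)).card : ℝ) -
        ∑ n ∈ Icc 1 Y, Po (lam Q w y B n) A| ≤ ε * Y := by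
  obtain ⟨K0, x0, hK0, hfund⟩ := sys_fund c hc 1 one_pos
  obtain ⟨y1, hy1, hroot⟩ := root_small 0 1 (ε / 4) le_rfl one_pos (by positivity)
  refine ⟨K0, max (max x0 y1) (Mw w), hK0, ?_⟩
  intro Q y Y B hQ hwy hy hyY hBY hB A
  have hMpos := Mw_pos w
  have hyY1 : y ≤ Y := by
    have h1 : y ^ 1 ≤ y ^ K0 := Nat.pow_le_pow_right (by omega) hK0
    rw [pow_one] at h1
    omega
  have hY0 : (0 : ℝ) ≤ Y := Nat.cast_nonneg Y
  -- the first moment
  have hone : ∀ b ∈ B, (((Icc 1 Y).filter (fun n => Sf Q y (n + b))).card : ℝ) ≤ 2 * (Y * Vq Q y) + √(Y : ℝ) := by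
    intro b _
    have h1 := hfund Y y (by omega) hyY (Qt Q b) (perB_Qt Q c hQ b) Y
    have e1 : ∏ p ∈ pz y, (1 - (nuB (Qt Q b) p : ℝ) / p) = Vq Q y := Vq_Qt Q c hQ b y
    rw [e1] at h1
    have h2 := (abs_le.1 h1).2
    have e2 : ((Icc 1 Y).filter (fun n => Sf Q y (n + b))).card =
        ((Icc 1 Y).filter (fun n : ℕ => ∀ p ∈ pz y, ¬ Qt Q b p n)).card := by
      congr 1
      ext n
      rw [mem_filter, mem_filter]
      exact Iff.rfl
    rw [e2]
    linarith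
  have hsum : ∑ n ∈ Icc 1 Y, (NB Q y B n : ℝ) ≤ ε / 2 * Y := by
    have h1 : ∀ n ∈ Icc 1 Y, (NB Q y B n : ℝ) = ∑ b ∈ B, if Sf Q y (n + b) then (1 : ℝ) else 0 := by
      intro n _
      unfold NB
      rw [Finset.sum_ite, Finset.sum_const_zero, add_zero, Finset.sum_const, nsmul_eq_mul, mul_one]
    rw [sum_congr rfl h1, sum_comm]
    have h2 : ∀ b ∈ B, ∑ n ∈ Icc 1 Y, (if Sf Q y (n + b) then (1 : ℝ) else 0) ≤ 2 * (Y * Vq Q y) + √(Y : ℝ) := by
      intro b hb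
      rw [Finset.sum_ite, Finset.sum_const_zero, add_zero, Finset.sum_const, nsmul_eq_mul, mul_one]
      exact hone b hb
    refine (sum_le_sum h2).trans ?_
    rw [sum_const, nsmul_eq_mul]
    have h3 := hroot Y (by omega) B.card (Nat.cast_nonneg _) (by exact_mod_cast hBY)
    rw [div_one, add_zero] at h3
    calc (B.card : ℝ) * (2 * (Y * Vq Q y) + √(Y : ℝ)) = 2 * Y * (B.card * Vq Q y) + B.card * √(Y : ℝ) := by ring
      _ ≤ 2 * Y * (ε / 8) + ε / 4 * Y := add_le_add (mul_le_mul_of_nonneg_left hB (by positivity)) h3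
      _ = _ := by ring
  have hlam : ∑ n ∈ Icc 1 Y, lam Q w y B n ≤ ε / 4 * Y := by
    refine (sum_lam Q c hQ w y Y B hwy (by omega)).trans ?_
    calc 2 * (Y : ℝ) * (B.card * Vq Q y) ≤ 2 * Y * (ε / 8) := mul_le_mul_of_nonneg_left hB (by positivity)
      _ = _ := by ring
  have e1 : (((Icc 1 Y).filter (fun n => NB Q y B n ∈ A)).card : ℝ) =
      ∑ n ∈ Icc 1 Y, if NB Q y B n ∈ A then (1 : ℝ) else 0 := by
    rw [Finset.sum_ite, Finset.sum_const_zero, add_zero, Finset.sum_const, nsmul_eq_mul, mul_one]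
  rw [e1, ← sum_sub_distrib]
  refine (abs_sum_le_sum_abs _ _).trans ?_
  have h1 : ∀ n ∈ Icc 1 Y, |(if NB Q y B n ∈ A then (1 : ℝ) else 0) - Po (lam Q w y B n) A| ≤
      NB Q y B n + lam Q w y B n := by
    intro n _
    have h2 : |(if NB Q y B n ∈ A then (1 : ℝ) else 0) - Po 0 A| ≤ NB Q y B n := by
      rw [Po_zero]
      rcases Nat.eq_zero_or_pos (NB Q y B n) with h | h
      · rw [h]
        simp
      · have h3 : (1 : ℝ) ≤ NB Q y B n := by exact_mod_cast h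
        split_ifs <;> simp <;> linarith
    have h3 := Po_diff 0 (lam Q w y B n) le_rfl (lam_nonneg Q w y B n) A
    rw [zero_sub, abs_neg, abs_of_nonneg (lam_nonneg Q w y B n)] at h3
    have h4 := abs_sub_le (if NB Q y B n ∈ A then (1 : ℝ) else 0) (Po 0 A) (Po (lam Q w y B n) A)
    linarith
  refine (sum_le_sum h1).trans ?_
  rw [sum_add_distrib]
  have : 0 ≤ ε * Y := by positivity
  linarith

open Classical in
/-- **The mixed Poisson law** for the number of sifted elements of `n + B`. -/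
theorem mixed (c : ℕ) (hc : 1 ≤ c) (x0 ε : ℝ) (hx0 : 0 ≤ x0) (hε : 0 < ε) :
    ∃ (K R0 w0 : ℕ) (η2 : ℝ), 1 ≤ w0 ∧ 0 < η2 ∧ ∀ w : ℕ, w0 ≤ w → ∃ (K0 y0 : ℕ) (v : ℝ), 1 ≤ K0 ∧ 0 < v ∧
      ∀ (Q : ℕ → ℕ → Prop) (y Y : ℕ) (B : Finset ℕ), PerB Q c → (∀ p : ℕ, p.Prime → nuB Q p < p) →
      w ≤ y → y0 ≤ y → y ^ K0 ≤ Y → B.card ^ R0 ≤ Y → Vq Q y ≤ v → B.card * Vq Q y ≤ x0 →
      (ε / 8 ≤ B.card * Vq Q y → Sg Q K w y B ≤ η2 * (Vq Q w * B.card ^ 2)) →
      ∀ A : Finset ℕ, |(((Icc 1 Y).filter (fun n => NB Q y B n ∈ A)).card : ℝ) -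
        ∑ n ∈ Icc 1 Y, Po (lam Q w y B n) A| ≤ ε * Y := by
  obtain ⟨K, R0, w0, η2, hw0, hη2, hmain⟩ := mixed_main c x0 ε hx0 hε
  refine ⟨K, R0 + 4, w0, η2, hw0, hη2, ?_⟩
  intro w hw
  obtain ⟨K0, y0, v, hK0, hv, hm⟩ := hmain w hw
  obtain ⟨K1, y1, hK1, hs⟩ := mixed_small c hc ε hε w
  refine ⟨K0 + K1, max (max y0 y1) 1, v, by omega, hv, ?_⟩
  intro Q y Y B hQ hadm hwy hy hyY hBY hVv hx hS A
  have h1 : y ^ K0 ≤ Y := (Nat.pow_le_pow_right (by omega) (by omega)).trans hyY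
  have h2 : y ^ K1 ≤ Y := (Nat.pow_le_pow_right (by omega) (by omega)).trans hyY
  have hYpos : 1 ≤ Y := by
    have : 1 ≤ y ^ K0 := Nat.one_le_pow _ _ (by omega)
    omega
  have hBR : ∀ j ≤ R0 + 4, 1 ≤ j → B.card ^ j ≤ Y := by
    intro j hj hj1
    rcases Nat.eq_zero_or_pos B.card with h | h
    · rw [h, zero_pow (by omega)]
      omega
    · exact (Nat.pow_le_pow_right h hj).trans hBY
  rcases le_or_gt (ε / 8) (B.card * Vq Q y) with h | h
  · refine hm Q y Y B hQ hadm hwy (by omega) h1 ?_ hVv hx (hS h) A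
    rcases Nat.eq_zero_or_pos R0 with h0 | h0
    · rw [h0, pow_zero]
      exact hYpos
    · exact hBR R0 (by omega) h0
  · exact hs Q y Y B hQ hwy (by omega) h2 (hBR 4 (by omega) (by omega)) h.le A

end Pool.Agent.Q236.ML
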