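import Pool.Agent.Q236.ML.Pairs
import Pool.Agent.W123.RP.Mert

set_option autoImplicit false

/-!
# The mixed Poisson law for the values of a function which is periodic modulo all primes
-/

namespace Pool.Agent.Q236.ML

open Finset Filter Pool.Agent.H373R2.T7 Pool.Agent.W123.RP Pool.Agent.W123.RU Pool.Agent.TH464.PO
open Pool.Agent.Q236.CP

open Classical in
/-- the number of `m ≤ M` such that `G m + c` has no prime factor `≤ y` -/
noncomputable def cnt (G : ℕ → ℤ) (y M : ℕ) (c : ℤ) : ℕ :=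
  ((Icc 1 M).filter (fun m => ∀ p ∈ pz y, ¬ (p : ℤ) ∣ G m + c)).card

/-- the number of zeros modulo `p` -/
def rho (G : ℕ → ℤ) (p : ℕ) (c : ℤ) : ℕ := ((range p).filter (fun r : ℕ => (p : ℤ) ∣ G r + c)).card

/-- the truncated singular series of `G + c` -/
noncomputable def SS (G : ℕ → ℤ) (w : ℕ) (c : ℤ) : ℝ :=
  ∏ p ∈ pz w, (1 - (rho G p c : ℝ) / p) / (1 - 1 / (p : ℝ))

lemma Vq_Qz (z : ℤ) (y : ℕ) : Vq (Qz z) y = Vz y := by
  unfold Vq Vz
  apply prod_congr rfl
  intro p hp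
  rw [nuB_Qz z p (mem_pz.1 hp).2.pos, Nat.cast_one]

/-- the shift making all values nonnegative -/
def shf (G : ℕ → ℤ) (M : ℕ) : ℤ := ∑ m ∈ Icc 1 M, |G m|

lemma shf_nonneg (G : ℕ → ℤ) (M m : ℕ) (hm : m ∈ Icc 1 M) : 0 ≤ G m + shf G M := by
  have h1 : |G m| ≤ shf G M := by
    unfold shf
    exact single_le_sum (f := fun m => |G m|) (fun i _ => abs_nonneg _) hm
  have := neg_abs_le (G m)
  linarith

lemma vals_inj (G : ℕ → ℤ) (M : ℕ) (hinj : ∀ m ∈ Icc 1 M, ∀ m' ∈ Icc 1 M, G m = G m' → m = m') :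
    Set.InjOn (fun m => (G m + shf G M).toNat) (Icc 1 M : Finset ℕ) := by
  intro m hm m' hm' h
  simp only at h
  have h1 := Int.toNat_of_nonneg (shf_nonneg G M m (mem_coe.1 hm))
  have h2 := Int.toNat_of_nonneg (shf_nonneg G M m' (mem_coe.1 hm'))
  rw [h, h2] at h1
  apply hinj m (mem_coe.1 hm) m' (mem_coe.1 hm')
  linarith

lemma vals_card (G : ℕ → ℤ) (M : ℕ) (hinj : ∀ m ∈ Icc 1 M, ∀ m' ∈ Icc 1 M, G m = G m' → m = m') :
    (vals G (shf G M) M).card = M := by
  unfold vals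
  rw [card_image_of_injOn (vals_inj G M hinj), Nat.card_Icc, Nat.add_sub_cancel]

open Classical in
lemma NB_vals (G : ℕ → ℤ) (M y n : ℕ) (z : ℤ) (hinj : ∀ m ∈ Icc 1 M, ∀ m' ∈ Icc 1 M, G m = G m' → m = m') :
    NB (Qz (z - shf G M)) y (vals G (shf G M) M) n = cnt G y M (z + n) := by
  unfold NB cnt vals
  rw [filter_image, card_image_of_injOn ((vals_inj G M hinj).mono (by
    intro x hx
    rw [mem_coe, mem_filter] at hx
    exact hx.1))]
  congr 1
  apply filter_congr
  intro m hm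
  have h1 := Int.toNat_of_nonneg (shf_nonneg G M m hm)
  unfold Sf Qz
  apply forall_congr'
  intro p
  apply imp_congr_right
  intro _
  have e : ((n + (G m + shf G M).toNat : ℕ) : ℤ) + (z - shf G M) = G m + (z + n) := by
    push_cast
    rw [h1]
    ring
  rw [e]

/-- the system of the zeros of `G + c` modulo the primes `≤ w` -/
def Qc (G : ℕ → ℤ) (w : ℕ) (c : ℤ) (p m : ℕ) : Prop := p ≤ w ∧ (p : ℤ) ∣ G m + c

open Classical in
lemma nuB_Qc (G : ℕ → ℤ) (w : ℕ) (c : ℤ) (p : ℕ) (hp : p ≤ w) : nuB (Qc G w c) p = rho G p c := by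
  unfold nuB rho
  congr 1
  ext r
  rw [mem_filter, mem_filter]
  unfold Qc
  tauto

lemma perB_Qc (G : ℕ → ℤ) (w D : ℕ) (c : ℤ) (hG : PL G w D) : PerB (Qc G w c) w := by
  constructor
  · intro p n
    unfold Qc
    apply and_congr_right
    intro _
    have h1 := hG.per p n
    constructor
    · intro h2
      have : G (n % p) + c = (G n + c) - (G n - G (n % p)) := by ring
      rw [this]
      exact dvd_sub h2 h1
    · intro h2
      have : G n + c = (G (n % p) + c) + (G n - G (n % p)) := by ring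
      rw [this]
      exact dvd_add h2 h1
  · intro p hp
    classical
    by_cases h : p ≤ w
    · exact (nuB_le _ p).trans h
    · unfold nuB
      rw [filter_eq_empty_iff.2 (fun r _ h2 => h h2.1)]
      simp

open Classical in
/-- the count at the small primes -/
lemma cnt_small (G : ℕ → ℤ) (w D M : ℕ) (c : ℤ) (hG : PL G w D) :
    |(cnt G w M c : ℝ) - M * ∏ p ∈ pz w, (1 - (rho G p c : ℝ) / p)| ≤ Mw w := by
  have h1 := window (Qc G w c) w (perB_Qc G w D c hG) w 0 M
  have e1 : Vq (Qc G w c) w = ∏ p ∈ pz w, (1 - (rho G p c : ℝ) / p) := by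
    unfold Vq
    apply prod_congr rfl
    intro p hp
    rw [nuB_Qc G w c p (mem_pz.1 hp).1]
  rw [e1] at h1
  have e2 : ((Icc 1 M).filter (fun h => Sf (Qc G w c) w (0 + h))).card = cnt G w M c := by
    unfold cnt
    congr 1
    apply filter_congr
    intro m _
    unfold Sf Qc
    rw [zero_add]
    apply forall_congr'
    intro p
    apply imp_congr_right
    intro hp
    have := (mem_pz.1 hp).1
    tauto
  rw [e2] at h1
  exact h1

/-- the parameter -/
lemma lam_vals (G : ℕ → ℤ) (w D M y n : ℕ) (z : ℤ) (hG : PL G w D) (hwy : w ≤ y)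
    (hinj : ∀ m ∈ Icc 1 M, ∀ m' ∈ Icc 1 M, G m = G m' → m = m') :
    |lam (Qz (z - shf G M)) w y (vals G (shf G M) M) n - M * Vz y * SS G w (z + n)| ≤
      Mw w * Vt (Qz (z - shf G M)) w y := by
  classical
  have hV0 := Vt_nonneg (Qz (z - shf G M)) w y
  have e1 : lam (Qz (z - shf G M)) w y (vals G (shf G M) M) n =
      cnt G w M (z + n) * Vt (Qz (z - shf G M)) w y := by
    unfold lam
    rw [← NB_vals G M w n z hinj]
    rfl
  have hVw : (0 : ℝ) < Vz w := by
    unfold Vz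
    apply prod_pos
    intro p hp
    have : (2 : ℝ) ≤ p := by exact_mod_cast (mem_pz.1 hp).2.two_le
    rw [sub_pos, div_lt_one (by linarith)]
    linarith
  have e2 : (M : ℝ) * Vz y * SS G w (z + n) =
      M * (∏ p ∈ pz w, (1 - (rho G p (z + n) : ℝ) / p)) * Vt (Qz (z - shf G M)) w y := by
    have h1 := Vq_split (Qz (z - shf G M)) w y hwy
    rw [Vq_Qz, Vq_Qz] at h1
    have h2 : SS G w (z + n) = (∏ p ∈ pz w, (1 - (rho G p (z + n) : ℝ) / p)) / Vz w := by
      unfold SS Vz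
      rw [prod_div_distrib]
    rw [h1, h2]
    field_simp
  rw [e1, e2, ← sub_mul, abs_mul, abs_of_nonneg hV0]
  exact mul_le_mul_of_nonneg_right (cnt_small G w D M (z + n) hG) hV0

lemma SS_nonneg (G : ℕ → ℤ) (w : ℕ) (c : ℤ) : 0 ≤ SS G w c := by
  unfold SS
  apply prod_nonneg
  intro p hp
  have h2 : (2 : ℝ) ≤ p := by exact_mod_cast (mem_pz.1 hp).2.two_le
  apply div_nonneg
  · rw [sub_nonneg, div_le_one (by linarith)]
    have : rho G p c ≤ p := by
      unfold rho
      exact (card_filter_le _ _).trans (by simp)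
    exact_mod_cast this
  · rw [sub_nonneg, div_le_one (by linarith)]
    linarith

/-- few large primes divide a bounded integer -/
lemma large_count (T y : ℕ) (R : ℤ) (hR : R ≠ 0) (C : ℕ) (hRC : |R| ≤ (y : ℤ) ^ C) (S : Finset ℕ)
    (hS : ∀ p ∈ S, p.Prime ∧ T < p ∧ (p : ℤ) ∣ R) (hT : 2 ≤ T) : (S.card : ℝ) * Real.log T ≤ C * Real.log y := by
  have h1 : ∏ p ∈ S, p ∣ R.natAbs := by
    apply Finset.prod_primes_dvd
    · intro p hp
      exact (hS p hp).1.prime
    · intro p hp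
      exact Int.natCast_dvd.1 (hS p hp).2.2
  have h2 : ∏ p ∈ S, p ≤ R.natAbs := Nat.le_of_dvd (Int.natAbs_pos.2 hR) h1
  have h3 : T ^ S.card ≤ ∏ p ∈ S, p := by
    rw [← prod_const]
    apply prod_le_prod'
    intro p hp
    exact (hS p hp).2.1.le
  have h4 : R.natAbs ≤ y ^ C := by
    have : (R.natAbs : ℤ) ≤ (y : ℤ) ^ C := by
      rw [Int.natCast_natAbs]
      exact hRC
    exact_mod_cast this
  have h5 : T ^ S.card ≤ y ^ C := h3.trans (h2.trans h4)
  have hTr : (0 : ℝ) < T := by exact_mod_cast (by omega : 0 < T)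
  have h6 : ((T : ℝ)) ^ S.card ≤ (y : ℝ) ^ C := by exact_mod_cast h5
  have h7 := Real.log_le_log (by positivity) h6
  rw [Real.log_pow, Real.log_pow] at h7
  exact h7

end Pool.Agent.Q236.ML
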